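import Pool.Agent.Helper9.CQ.Thr
import Pool.Agent.Helper67.CQ.Z

/-!
# The fibres of the threefolds `a z ^ n = v (1 - v)` over the `z`-line
-/

set_option autoImplicit false

namespace Pool.Agent.Helper9.CT

open Pool.Agent.Helper29.CQ Pool.Agent.Helper65.CC Pool.Agent.Helper87.CC
  Pool.Agent.Helper65.CC.KFn
open Pool.Agent.Helper67.CQ (Dbl IsDbl isDbl_std)
open Polynomial TensorProduct

section

variable {k R : Type} [Field k] [CommRing R] [Algebra k R]

/-- the fibre: points `ρ : R → S` and `v` in `S` with `ρ(a) z ^ n = v (1 - v)` -/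
def dblF {K : Type} [Field K] (φ : k[X] →+* K) (a : R) (n : ℕ) : KFn K where
  obj S _ _ := {q : (R →+* S) × S // (∀ c : k, q.1 (algebraMap k R c) = algebraMap K S (φ (C c))) ∧
    q.1 a * algebraMap K S (φ X) ^ n = q.2 * (1 - q.2)}
  map {S T} _ _ _ _ g q := ⟨((g : S →+* T).comp q.1.1, g q.1.2), fun c => by
      change g (q.1.1 (algebraMap k R c)) = _
      rw [q.2.1 c, g.commutes], by
      have h1 := congrArg g q.2.2
      have h2 : g (q.1.1 a * algebraMap K S (φ X) ^ n) = g (q.1.1 a) * algebraMap K T (φ X) ^ n := by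
        rw [map_mul, map_pow, g.commutes]
      have h3 : g (q.1.2 * (1 - q.1.2)) = g q.1.2 * (1 - g q.1.2) := by
        rw [map_mul, map_sub, map_one]
      exact h2.symm.trans (h1.trans h3)⟩
  id_map q := rfl
  comp_map _ _ _ := rfl

/-- the structure of a scheme over the `z`-line -/
noncomputable def base {D : Type} [CommRing D] (i : R →+* D) (z : D) : k[X] →+* D :=
  eval₂RingHom (i.comp (algebraMap k R)) z

theorem base_C {D : Type} [CommRing D] (i : R →+* D) (z : D) (c : k) :
    base (k := k) i z (C c) = i (algebraMap k R c) := by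
  simp [base]

theorem base_X {D : Type} [CommRing D] (i : R →+* D) (z : D) :
    base (k := k) i z X = z := by
  simp [base]

theorem rep_dblF {D : Type} [CommRing D] {i : R →+* D} {z v : D} {n : ℕ} {a : R}
    (hD : IsDbl i z v n a) {K : Type} [Field K] [Algebra k[X] K] :
    let _ : Algebra k[X] D := (base (k := k) i z).toAlgebra
    ∃ pt, (dblF (algebraMap k[X] K) a n).Rep (K ⊗[k[X]] D) pt := by
  intro _
  let ι : D →ₐ[k[X]] K ⊗[k[X]] D := Algebra.TensorProduct.includeRight
  have hι : ∀ r : k[X], algebraMap K (K ⊗[k[X]] D) (algebraMap k[X] K r) =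
      ι (base (k := k) i z r) := by
    intro r
    have h1 := ι.commutes r
    change ι (base (k := k) i z r) = _ at h1
    rw [h1, IsScalarTower.algebraMap_apply k[X] K (K ⊗[k[X]] D)]
  refine ⟨⟨((ι : D →+* K ⊗[k[X]] D).comp i, ι v), ?_, ?_⟩, ?_⟩
  · intro c
    change ι (i (algebraMap k R c)) = _
    rw [hι, base_C]
  · change ι (i a) * _ = ι v * (1 - ι v)
    rw [hι, base_X, ← map_pow, ← map_mul, hD.rel, map_mul, map_sub, map_one]
  · intro S _ _ q
    let _ : Algebra k[X] S := ((algebraMap K S).comp (algebraMap k[X] K)).toAlgebra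
    have hst : IsScalarTower k[X] K S := IsScalarTower.of_algebraMap_eq fun _ => rfl
    obtain ⟨h2, h2i, h2z, h2v⟩ := hD.ex S q.1.1 (algebraMap K S (algebraMap k[X] K X)) q.1.2 q.2.2
    have hcomm : ∀ r : k[X], h2 (base (k := k) i z r) =
        algebraMap K S (algebraMap k[X] K r) := by
      intro r
      have h3 : h2.comp (base (k := k) i z) = (algebraMap K S).comp (algebraMap k[X] K) := by
        apply Polynomial.ringHom_ext
        · intro c
          rw [RingHom.comp_apply, base_C, ← RingHom.comp_apply, h2i, q.2.1]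
          rfl
        · rw [RingHom.comp_apply, base_X, h2z]
          rfl
      exact RingHom.congr_fun h3 r
    let h2' : D →ₐ[k[X]] S := { h2 with commutes' := hcomm }
    let g0 : K ⊗[k[X]] D →ₐ[K] S :=
      Algebra.TensorProduct.lift (Algebra.ofId K S) h2' (fun _ _ => Commute.all _ _)
    have hg0 : ∀ d : D, g0 (ι d) = h2 d := by
      intro d
      change g0 ((1 : K) ⊗ₜ d) = h2 d
      simp only [g0, Algebra.TensorProduct.lift_tmul, map_one, one_mul]
      rfl
    refine ⟨g0, ?_, ?_⟩
    · apply Subtype.ext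
      refine Prod.ext ?_ ?_
      · refine RingHom.ext fun x => ?_
        change g0 (ι (i x)) = q.1.1 x
        rw [hg0, ← h2i]
        rfl
      · change g0 (ι v) = q.1.2
        rw [hg0, h2v]
    · intro g' hg'
      have e0 := congrArg Subtype.val hg'
      have e1 : ∀ x, g' (ι (i x)) = q.1.1 x := by
        intro x
        have := congrArg (fun r => r.1 x) e0
        exact this
      have e2 : g' (ι v) = q.1.2 := congrArg (fun r => r.2) e0
      apply Algebra.TensorProduct.ext
      · ext
      · apply AlgHom.coe_ringHom_injective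
        apply hD.uniq
        · refine RingHom.ext fun x => ?_
          change g' (ι (i x)) = g0 (ι (i x))
          rw [e1, hg0, ← h2i]
          rfl
        · change g' (ι z) = g0 (ι z)
          rw [← base_X (k := k) i z, ← hι, AlgHom.commutes, AlgHom.commutes]
        · change g' (ι v) = g0 (ι v)
          rw [e2, hg0, h2v]

end

/-- **the fibre decomposition** over the `z`-line -/
theorem dbl_mem {p : ℕ} (hp : p.Prime) {P : ∀ (A : Type) [CommRing A], Prop}
    (hP : FormalClass p P) (k : Type) [Field k] [Finite k] [CharP k p] (R : Type) [CommRing R]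
    [Algebra k R] (hR : Algebra.FiniteType ℤ R) (a : R) (n : ℕ)
    (h : ∀ (K : Type) [Field K] [IsAlgClosed K] [CharP K p] (φ : k[X] →+* K)
      (G : ∀ (R : Type) [CommRing R] [Algebra K R], Prop), GOps K G →
      (∀ (_ : Algebra k K) (W : Type) [CommRing W] [Algebra k W], Algebra.FiniteType ℤ W →
        ringKrullDim W ≤ 1 → G (K ⊗[k] W)) → (dblF φ a n).Mem G) :
    P (Dbl R n a) := by
  have hS := Pool.Agent.Helper9.CQ.Sops.sops hp hP
  have hft1 : Algebra.FiniteType ℤ k := by
    have : Module.Finite ℤ k := Module.Finite.of_finite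
    infer_instance
  have hft2 : Algebra.FiniteType ℤ k[X] := ft_alg hft1 inferInstance
  have hD := isDbl_std n a
  have hft3 : Algebra.FiniteType ℤ (Dbl R n a) := hD.ft hR
  let _ : Algebra k[X] (Dbl R n a) := (base (k := k)
    ((AdjoinRoot.of (C (C a * X ^ n) - X * (1 - X) : R[X][X])).comp C)
      (AdjoinRoot.of (C (C a * X ^ n) - X * (1 - X) : R[X][X]) X)).toAlgebra
  have hft4 : Algebra.FiniteType k[X] (Dbl R n a) :=
    Algebra.FiniteType.of_restrictScalars_finiteType ℤ k[X] (Dbl R n a)
  have hdim : ∀ q : Ideal k[X], ringKrullDim (k[X] ⧸ q) ≤ 1 := by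
    intro q
    refine (ringKrullDim_quotient_le q).trans ?_
    rw [Polynomial.ringKrullDim_of_isNoetherianRing, ringKrullDim_eq_zero_of_field]
    exact le_of_eq (zero_add 1)
  have hmult : MultS (fun A _ => Algebra.FiniteType ℤ A ∧ P (ZMod p ⊗[ℤ] A)) (Dbl R n a) := by
    refine Pool.Agent.Helper20.BL.fibres_mult hS hft2 hft4 ?_ ?_
    · intro q _ _
      have hcp : CharP (AlgebraicClosure q.ResidueField) p :=
        charP_of_injective_ringHom (((algebraMap k[X]
          (AlgebraicClosure q.ResidueField)).comp C).injective) p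
      obtain ⟨pt, hpt⟩ := rep_dblF (k := k) hD (K := AlgebraicClosure q.ResidueField)
      have hmem := h (AlgebraicClosure q.ResidueField)
        (algebraMap k[X] (AlgebraicClosure q.ResidueField)) _
        (Pool.Agent.Helper9.CQ.Thr.geo_gops hS (AlgebraicClosure q.ResidueField))
        (fun _ W _ _ h1 h3 => Pool.Agent.Helper9.CQ.ConstOver.const_over W
            (MultS.curve hS (CurveProd.of_dim h1 h3)))
      exact hmem _ pt (Algebra.FiniteType.baseChange _) hpt
    · intro q _ h
      exact absurd h (not_lt.2 (hdim q))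
  have h1 := (MultS.mem hS hmult).2
  have hchar : ((p : ℕ) : Dbl R n a) = 0 := by
    have h5 : ((p : ℕ) : k) = 0 := CharP.cast_eq_zero k p
    have h6 := congrArg (((AdjoinRoot.of (C (C a * X ^ n) - X * (1 - X) : R[X][X])).comp C).comp
      (algebraMap k R)) h5
    rwa [map_natCast, map_zero] at h6
  obtain ⟨e⟩ := Pool.Agent.Helper9.CQ.Thr.zmod_ten (Dbl R n a) hchar
  exact hP.iso _ _ e h1

end Pool.Agent.Helper9.CT
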