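import Pool.Agent.Helper9.CT.Tower
import Pool.Agent.Helper71.CT.Defs

/-!
# Towers of double planes: the fibres are double covers of the quadric cone
-/

set_option autoImplicit false

namespace Pool.Agent.Helper9.CT

open Pool.Agent.Helper29.CQ Pool.Agent.Helper65.CC Pool.Agent.Helper87.CC
  Pool.Agent.Helper65.CC.KFn
open Pool.Agent.Helper67.CQ
open Pool.Agent.Helper71.CT
open Pool.Agent.Helper9.CQ.Thr (cf eval_F4 rep_BC dim_BC GeoMain)
open Polynomial TensorProduct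

/-- the statement of the geometric theorem about double covers of the quadric cone -/
def ConeMain : Prop :=
  ∀ (K : Type) [Field K] [IsAlgClosed K] (G : ∀ (R : Type) [CommRing R] [Algebra K R], Prop),
    (2 : K) ≠ 0 → GOps K G → ∀ (al : K) (a2 a4 a6 : K[X]), a2.natDegree ≤ 2 →
    a4.natDegree ≤ 4 → a6.natDegree ≤ 6 → (BC (top al a2 a4 a6)).Mem G →
    ¬ Cyl6 al a2 a4 a6 → (W al a2 a4 a6).Mem G

section

variable {K : Type} [Field K] {G : ∀ (R : Type) [CommRing R] [Algebra K R], Prop}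

/-- the fibre in coordinates -/
def D3 (c : ℕ → ℕ → K) (z : K) : KFn K where
  obj S _ _ := {q : S × S × S × S // q.2.2.1 ^ 2 = F4 c q.1 q.2.1 1 ∧
    q.2.1 * algebraMap K S z = q.2.2.2 * (1 - q.2.2.2)}
  map {S T} _ _ _ _ g q := ⟨(g q.1.1, g q.1.2.1, g q.1.2.2.1, g q.1.2.2.2), by
      have h1 := congrArg g q.2.1
      rw [map_pow, F4_map, map_one] at h1
      exact h1, by
      have h1 := congrArg g q.2.2
      rw [map_mul, map_mul, map_sub, map_one, g.commutes] at h1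
      exact h1⟩
  id_map q := rfl
  comp_map _ _ _ := rfl

/-- evaluation at the point `(x, t)` -/
noncomputable def hm {k : Type} [Field k] (φ : k[X] →+* K) {S : Type} [CommRing S] [Algebra K S]
    (x t : S) : MvPolynomial (Fin 2) k →+* S :=
  MvPolynomial.eval₂Hom ((algebraMap K S).comp (φ.comp C)) ![x, t]

theorem hm_eq {k : Type} [Field k] (φ : k[X] →+* K) {h : MvPolynomial (Fin 2) k}
    (hh : h.totalDegree ≤ 3) {S : Type} [CommRing S] [Algebra K S] (x t : S) :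
    hm φ x t h = F4 (cf (φ.comp C) h) x t 1 :=
  eval_F4 (φ.comp C) h (hh.trans (by norm_num)) (R := S) ![x, t]

/-- the homomorphism with given values at the coordinates -/
noncomputable def lft {k : Type} [Field k] (φ : k[X] →+* K) {h : MvPolynomial (Fin 2) k}
    (hh : h.totalDegree ≤ 3) {S : Type} [CommRing S] [Algebra K S] (x t u : S)
    (hu : u ^ 2 = F4 (cf (φ.comp C) h) x t 1) : Cyc 2 h →+* S :=
  AdjoinRoot.lift (hm φ x t) u (by
    rw [eval₂_sub, eval₂_pow, eval₂_X, eval₂_C, hm_eq φ hh, hu, sub_self])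

theorem lft_of {k : Type} [Field k] (φ : k[X] →+* K) {h : MvPolynomial (Fin 2) k}
    (hh : h.totalDegree ≤ 3) {S : Type} [CommRing S] [Algebra K S] (x t u : S)
    (hu : u ^ 2 = F4 (cf (φ.comp C) h) x t 1) (a : MvPolynomial (Fin 2) k) :
    lft φ hh x t u hu (AdjoinRoot.of (X ^ 2 - C h : Polynomial (MvPolynomial (Fin 2) k)) a) =
      hm φ x t a := AdjoinRoot.lift_of _

theorem lft_root {k : Type} [Field k] (φ : k[X] →+* K) {h : MvPolynomial (Fin 2) k}
    (hh : h.totalDegree ≤ 3) {S : Type} [CommRing S] [Algebra K S] (x t u : S)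
    (hu : u ^ 2 = F4 (cf (φ.comp C) h) x t 1) :
    lft φ hh x t u hu (AdjoinRoot.root (X ^ 2 - C h : Polynomial (MvPolynomial (Fin 2) k))) = u :=
  AdjoinRoot.lift_root _

/-- the coordinate `x` -/
noncomputable abbrev xx {k : Type} [Field k] (h : MvPolynomial (Fin 2) k) : Cyc 2 h :=
  AdjoinRoot.of (X ^ 2 - C h : Polynomial (MvPolynomial (Fin 2) k)) (MvPolynomial.X 0)

/-- the coordinate `y` -/
noncomputable abbrev yy {k : Type} [Field k] (h : MvPolynomial (Fin 2) k) : Cyc 2 h :=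
  AdjoinRoot.root (X ^ 2 - C h : Polynomial (MvPolynomial (Fin 2) k))

theorem pt_comp {k : Type} [Field k] (φ : k[X] →+* K) {h : MvPolynomial (Fin 2) k}
    {S : Type} [CommRing S] [Algebra K S] (ρ : Cyc 2 h →+* S)
    (hρ : ∀ c : k, ρ (algebraMap k (Cyc 2 h) c) = algebraMap K S (φ (C c))) :
    hm φ (ρ (xx h)) (ρ (tt h)) =
      ρ.comp (AdjoinRoot.of (X ^ 2 - C h : Polynomial (MvPolynomial (Fin 2) k))) := by
  apply MvPolynomial.ringHom_ext
  · intro a
    rw [hm, MvPolynomial.eval₂Hom_C]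
    change algebraMap K S (φ (C a)) = ρ _
    rw [← hρ a]
    rfl
  · intro i
    rw [hm, MvPolynomial.eval₂Hom_X']
    fin_cases i <;> rfl

theorem pt_eq {k : Type} [Field k] (φ : k[X] →+* K) {h : MvPolynomial (Fin 2) k}
    (hh : h.totalDegree ≤ 3) {S : Type} [CommRing S] [Algebra K S] (ρ : Cyc 2 h →+* S)
    (hρ : ∀ c : k, ρ (algebraMap k (Cyc 2 h) c) = algebraMap K S (φ (C c))) :
    ρ (yy h) ^ 2 = F4 (cf (φ.comp C) h) (ρ (xx h)) (ρ (tt h)) 1 := by
  rw [← hm_eq φ hh, pt_comp φ ρ hρ, ← map_pow]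
  exact congrArg ρ (isKum_std 2 h).rel

theorem lft_x {k : Type} [Field k] (φ : k[X] →+* K) {h : MvPolynomial (Fin 2) k}
    (hh : h.totalDegree ≤ 3) {S : Type} [CommRing S] [Algebra K S] (x t u : S)
    (hu : u ^ 2 = F4 (cf (φ.comp C) h) x t 1) : lft φ hh x t u hu (xx h) = x := by
  rw [xx, lft_of, hm, MvPolynomial.eval₂Hom_X']
  rfl

theorem lft_t {k : Type} [Field k] (φ : k[X] →+* K) {h : MvPolynomial (Fin 2) k}
    (hh : h.totalDegree ≤ 3) {S : Type} [CommRing S] [Algebra K S] (x t u : S)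
    (hu : u ^ 2 = F4 (cf (φ.comp C) h) x t 1) : lft φ hh x t u hu (tt h) = t := by
  rw [tt, lft_of, hm, MvPolynomial.eval₂Hom_X']
  rfl

theorem lft_c {k : Type} [Field k] (φ : k[X] →+* K) {h : MvPolynomial (Fin 2) k}
    (hh : h.totalDegree ≤ 3) {S : Type} [CommRing S] [Algebra K S] (x t u : S)
    (hu : u ^ 2 = F4 (cf (φ.comp C) h) x t 1) (c : k) :
    lft φ hh x t u hu (algebraMap k (Cyc 2 h) c) = algebraMap K S (φ (C c)) := by
  change lft φ hh _ _ _ _ (AdjoinRoot.of (X ^ 2 - C h : Polynomial (MvPolynomial (Fin 2) k))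
    (MvPolynomial.C c)) = _
  rw [lft_of, hm, MvPolynomial.eval₂Hom_C]
  rfl

theorem lft_inv {k : Type} [Field k] (φ : k[X] →+* K) {h : MvPolynomial (Fin 2) k}
    (hh : h.totalDegree ≤ 3) {S : Type} [CommRing S] [Algebra K S] (ρ : Cyc 2 h →+* S)
    (hρ : ∀ c : k, ρ (algebraMap k (Cyc 2 h) c) = algebraMap K S (φ (C c))) :
    lft φ hh (ρ (xx h)) (ρ (tt h)) (ρ (yy h)) (pt_eq φ hh ρ hρ) = ρ := by
  refine (isKum_std 2 h).uniq S _ _ ?_ ?_
  · refine RingHom.ext fun a => ?_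
    exact (lft_of φ hh _ _ _ (pt_eq φ hh ρ hρ) a).trans (RingHom.congr_fun (pt_comp φ ρ hρ) a)
  · exact lft_root φ hh _ _ _ (pt_eq φ hh ρ hρ)

/-- the fibre in coordinates -/
noncomputable def dblF_iso {k : Type} [Field k] (φ : k[X] →+* K) (h : MvPolynomial (Fin 2) k)
    (hh : h.totalDegree ≤ 3) (n : ℕ) :
    Iso (dblF φ (tt h) n) (D3 (cf (φ.comp C) h) (φ X ^ n)) where
  hom {S} _ _ q := ⟨(q.1.1 (xx h), q.1.1 (tt h), q.1.1 (yy h), q.1.2), pt_eq φ hh q.1.1 q.2.1,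
    (congrArg (fun e => q.1.1 (tt h) * e) (map_pow (algebraMap K S) (φ X) n)).trans q.2.2⟩
  inv {S} _ _ q := ⟨(lft φ hh q.1.1 q.1.2.1 q.1.2.2.1 q.2.1, q.1.2.2.2),
      lft_c φ hh q.1.1 q.1.2.1 q.1.2.2.1 q.2.1,
      (congrArg₂ (fun a b => a * b) (lft_t φ hh q.1.1 q.1.2.1 q.1.2.2.1 q.2.1)
        (map_pow (algebraMap K S) (φ X) n).symm).trans q.2.2⟩
  inv_hom {S} _ _ q := Subtype.ext (Prod.ext (lft_inv φ hh q.1.1 q.2.1) rfl)
  hom_inv {S} _ _ q := Subtype.ext (Prod.ext (lft_x φ hh q.1.1 q.1.2.1 q.1.2.2.1 q.2.1)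
    (Prod.ext (lft_t φ hh q.1.1 q.1.2.1 q.1.2.2.1 q.2.1)
      (Prod.ext (lft_root φ hh q.1.1 q.1.2.1 q.1.2.2.1 q.2.1) rfl)))
  nat f x := rfl

/-! ### The polynomials -/

/-- `w X (1 - X)` -/
noncomputable def lw (w : K) : K[X] := C w * (X - X ^ 2)

/-- the coefficient of `y²` -/
noncomputable def p2 (c : ℕ → ℕ → K) (w : K) : K[X] := C (c 2 0) + C (c 2 1) * lw w

/-- the coefficient of `y` -/
noncomputable def p4 (c : ℕ → ℕ → K) (w : K) : K[X] :=
  C (c 1 0) + C (c 1 1) * lw w + C (c 1 2) * lw w ^ 2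

/-- the constant term -/
noncomputable def p6 (c : ℕ → ℕ → K) (w : K) : K[X] :=
  C (c 0 0) + C (c 0 1) * lw w + C (c 0 2) * lw w ^ 2 + C (c 0 3) * lw w ^ 3

theorem aeval_lw (w : K) {S : Type} [CommRing S] [Algebra K S] (v : S) :
    aeval v (lw w) = algebraMap K S w * (v * (1 - v)) := by
  simp [lw]
  ring

theorem dv_eq (c : ℕ → ℕ → K) (hc : ∀ i, i < 5 → c i (4 - i) = 0) (w : K) {S : Type} [CommRing S]
    [Algebra K S] (v x : S) :
    Dv (c 3 0) (p2 c w) (p4 c w) (p6 c w) v x =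
      F4 c x (algebraMap K S w * (v * (1 - v))) 1 := by
  have h0 := hc 0 (by norm_num)
  have h1 := hc 1 (by norm_num)
  have h2 := hc 2 (by norm_num)
  have h3 := hc 3 (by norm_num)
  have h4 := hc 4 (by norm_num)
  norm_num at h0 h1 h2 h3 h4
  simp only [Dv, p2, p4, p6, F4, map_add, map_mul, map_pow, aeval_C, aeval_lw, h0, h1, h2, h3, h4,
    map_zero]
  ring

theorem lw_deg (w : K) : (lw w).natDegree ≤ 2 := by
  unfold lw
  compute_degree

theorem lw_coeff (w : K) : (lw w).coeff 2 = -w := by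
  simp [lw, coeff_X]

theorem lw_pow_deg (w : K) (m : ℕ) : (lw w ^ m).natDegree ≤ 2 * m := by
  refine (natDegree_pow_le).trans ?_
  have := lw_deg w
  nlinarith

theorem lw_pow_coeff (w : K) (m : ℕ) : (lw w ^ m).coeff (m * 2) = (-w) ^ m := by
  rw [coeff_pow_of_natDegree_le (lw_deg w), lw_coeff]

theorem lw_pow_coeff_lt (w : K) {m n : ℕ} (h : 2 * m < n) : (lw w ^ m).coeff n = 0 :=
  coeff_eq_zero_of_natDegree_lt ((lw_pow_deg w m).trans_lt h)

theorem p2_deg (c : ℕ → ℕ → K) (w : K) : (p2 c w).natDegree ≤ 2 := by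
  unfold p2 lw
  compute_degree

theorem p4_deg (c : ℕ → ℕ → K) (w : K) : (p4 c w).natDegree ≤ 4 := by
  unfold p4 lw
  compute_degree

theorem p6_deg (c : ℕ → ℕ → K) (w : K) : (p6 c w).natDegree ≤ 6 := by
  unfold p6 lw
  compute_degree

theorem top_eq (c : ℕ → ℕ → K) {w : K} (hw : w ≠ 0) :
    top (c 3 0) (p2 c w) (p4 c w) (p6 c w) = C (-w ^ 3) *
      bin4 ![c 0 3, c 1 2, c 2 1, c 3 0, 0] (C (-w⁻¹) * X + C 0 : K[X]) (C 0 * X + C 1) := by
  have e1 : (lw w).coeff 4 = 0 := by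
    have := lw_pow_coeff_lt w (m := 1) (n := 4) (by norm_num)
    rwa [pow_one] at this
  have e2 : (lw w).coeff 6 = 0 := by
    have := lw_pow_coeff_lt w (m := 1) (n := 6) (by norm_num)
    rwa [pow_one] at this
  have e3 : (lw w ^ 2).coeff 6 = 0 := lw_pow_coeff_lt w (by norm_num)
  have e4 : (lw w ^ 2).coeff 4 = w ^ 2 := by
    have := lw_pow_coeff w 2
    norm_num at this
    exact this
  have e5 : (lw w ^ 3).coeff 6 = - w ^ 3 := by
    have := lw_pow_coeff w 3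
    norm_num at this
    rw [this]
    ring
  have h2 : (p2 c w).coeff 2 = - (c 2 1 * w) := by
    simp only [p2, coeff_add, coeff_C_mul, lw_coeff, coeff_C]
    norm_num
  have h4 : (p4 c w).coeff 4 = c 1 2 * w ^ 2 := by
    simp only [p4, coeff_add, coeff_C_mul, e1, e4, coeff_C]
    norm_num
  have h6 : (p6 c w).coeff 6 = - (c 0 3 * w ^ 3) := by
    simp only [p6, coeff_add, coeff_C_mul, e2, e3, e5, coeff_C]
    norm_num
  have hwC : (C w : K[X]) * C w⁻¹ = 1 := by rw [← C_mul, mul_inv_cancel₀ hw, C_1]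
  rw [top, h2, h4, h6]
  simp only [bin4, Polynomial.algebraMap_eq, Matrix.cons_val_zero, Matrix.cons_val_one,
    Matrix.cons_val, C_neg, C_mul, C_pow, C_0, C_1, zero_mul, add_zero, zero_add, one_pow,
    mul_one]
  generalize (C w⁻¹ : K[X]) = wi at *
  generalize (C w : K[X]) = ww at *
  have h5 : ww ^ 2 * wi ^ 2 = 1 := by rw [← mul_pow, hwC, one_pow]
  have h7 : ww ^ 3 * wi ^ 3 = 1 := by rw [← mul_pow, hwC, one_pow]
  linear_combination (-ww ^ 2 * C (c 1 2) * X) * hwC + (ww * C (c 2 1) * X ^ 2) * h5 +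
    (- C (c 3 0) * X ^ 3) * h7

/-- the fibre over `z ≠ 0` is a double cover of the cone -/
noncomputable def D3_iso (c : ℕ → ℕ → K) (hc : ∀ i, i < 5 → c i (4 - i) = 0) {z : K}
    (hz : z ≠ 0) : Iso (D3 c z) (W (c 3 0) (p2 c z⁻¹) (p4 c z⁻¹) (p6 c z⁻¹)) where
  hom {S} _ _ q := ⟨(q.1.2.2.2, q.1.1, q.1.2.2.1), by
    have h1 : q.1.2.2.1 ^ 2 = F4 c q.1.1 q.1.2.1 1 := q.2.1
    have h2 : q.1.2.1 * algebraMap K S z = q.1.2.2.2 * (1 - q.1.2.2.2) := q.2.2
    have h3 : algebraMap K S z⁻¹ * (q.1.2.2.2 * (1 - q.1.2.2.2)) = q.1.2.1 := by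
      rw [← h2, mul_left_comm, ← map_mul, inv_mul_cancel₀ hz, map_one, mul_one]
    change q.1.2.2.1 ^ 2 - Dv _ _ _ _ q.1.2.2.2 q.1.1 = 0
    rw [dv_eq c hc, h3, h1, sub_self]⟩
  inv {S} _ _ q := ⟨(q.1.2.1, algebraMap K S z⁻¹ * (q.1.1 * (1 - q.1.1)), q.1.2.2, q.1.1), by
    have h1 : q.1.2.2 ^ 2 - Dv (c 3 0) (p2 c z⁻¹) (p4 c z⁻¹) (p6 c z⁻¹) q.1.1 q.1.2.1 = 0 := q.2
    rw [dv_eq c hc] at h1
    exact sub_eq_zero.1 h1, by
    change algebraMap K S z⁻¹ * (q.1.1 * (1 - q.1.1)) * algebraMap K S z = q.1.1 * (1 - q.1.1)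
    rw [mul_right_comm, ← map_mul, inv_mul_cancel₀ hz, map_one, one_mul]⟩
  inv_hom {S} _ _ q := by
    have h2 : q.1.2.1 * algebraMap K S z = q.1.2.2.2 * (1 - q.1.2.2.2) := q.2.2
    have h3 : algebraMap K S z⁻¹ * (q.1.2.2.2 * (1 - q.1.2.2.2)) = q.1.2.1 := by
      rw [← h2, mul_left_comm, ← map_mul, inv_mul_cancel₀ hz, map_one, mul_one]
    exact Subtype.ext (Prod.ext rfl (Prod.ext h3 rfl))
  hom_inv {S} _ _ q := rfl
  nat {S T} _ _ _ _ f q := rfl

/-- the fibre over `z = 0` consists of two double planes -/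
theorem D3_zero (hG : GOps K G) (c : ℕ → ℕ → K) (hV : (V c).Mem G) : (D3 c 0).Mem G := by
  have hp : ∀ (S : Type) [CommRing S] [Algebra K S] (q : (D3 c 0).obj S),
      q.1.2.2.2 * (1 - q.1.2.2.2) = 0 := by
    intro S _ _ q
    exact q.2.2.symm.trans ((congrArg (fun e => q.1.2.1 * e) (map_zero (algebraMap K S))).trans
      (mul_zero _))
  let u : Coord (D3 c 0) := ⟨fun q => q.1.2.2.2, fun _ _ => rfl⟩
  refine Mem.glue hG.toKOps u ?_ ?_
  · refine Mem.of_iso (F' := V c) ?_ hV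
    exact
      { hom := fun q => ⟨(q.1.1.1, q.1.1.2.1, q.1.1.2.2.1), sub_eq_zero.2 q.1.2.1⟩
        inv := fun {R} _ _ q => ⟨⟨(q.1.1, q.1.2.1, q.1.2.2, 1), sub_eq_zero.1 q.2, by
          change q.1.2.1 * algebraMap K R 0 = 1 * (1 - 1)
          rw [map_zero]
          ring⟩, isUnit_one⟩
        inv_hom := fun {R} _ _ q => by
          have h1 := hp R q.1
          have h2 : IsUnit q.1.1.2.2.2 := q.2
          have h3 : 1 - q.1.1.2.2.2 = 0 := h2.mul_right_eq_zero.1 h1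
          have h4 : q.1.1.2.2.2 = 1 := (sub_eq_zero.1 h3).symm
          exact Subtype.ext (Subtype.ext (Prod.ext rfl (Prod.ext rfl (Prod.ext rfl h4.symm))))
        hom_inv := fun _ => rfl
        nat := fun _ _ => rfl }
  · refine Mem.of_iso (F' := V c) ?_ hV
    exact
      { hom := fun q => ⟨(q.1.1.1, q.1.1.2.1, q.1.1.2.2.1), sub_eq_zero.2 q.1.2.1⟩
        inv := fun {R} _ _ q => ⟨⟨(q.1.1, q.1.2.1, q.1.2.2, 0), sub_eq_zero.1 q.2, by
          change q.1.2.1 * algebraMap K R 0 = 0 * (1 - 0)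
          rw [map_zero]
          ring⟩, rfl⟩
        inv_hom := fun {R} _ _ q => by
          have h4 : q.1.1.2.2.2 = 0 := q.2
          exact Subtype.ext (Subtype.ext (Prod.ext rfl (Prod.ext rfl (Prod.ext rfl h4.symm))))
        hom_inv := fun _ => rfl
        nat := fun _ _ => rfl }

/-- the curve at infinity -/
theorem tower_inf [IsAlgClosed K] (hG : GOps K G) {k : Type} [Field k]
    [Finite k] [Algebra k K] (hW : ∀ (W : Type) [CommRing W] [Algebra k W],
      Algebra.FiniteType ℤ W → ringKrullDim W ≤ 1 → G (K ⊗[k] W)) (h : MvPolynomial (Fin 2) k)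
    {w : K} (hw : w ≠ 0) :
    (BC (top (cf (algebraMap k K) h 3 0) (p2 (cf (algebraMap k K) h) w)
      (p4 (cf (algebraMap k K) h) w) (p6 (cf (algebraMap k K) h) w))).Mem G := by
  rw [top_eq _ hw]
  refine BC.smul _ (neg_ne_zero.2 (pow_ne_zero 3 hw)) (BC.moebius hG _ _ _ _ _ ?_ ?_)
  · simpa using hw
  let c0 : ℕ → ℕ → k := cf (RingHom.id k) h
  let h0 : k[X] := bin4 ![c0 0 3, c0 1 2, c0 2 1, c0 3 0, 0] (X : k[X]) 1
  have h1 : bin4 ![cf (algebraMap k K) h 0 3, cf (algebraMap k K) h 1 2,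
      cf (algebraMap k K) h 2 1, cf (algebraMap k K) h 3 0, 0] (X : K[X]) 1 =
      h0.map (algebraMap k K) := by
    simp [h0, c0, bin4, cf, Polynomial.map_add, Polynomial.map_mul, Polynomial.map_pow]
  rw [h1]
  obtain ⟨a, ha⟩ := rep_BC (K := K) h0
  refine Mem.of_rep hG.toKOps ha (hW _ ?_ (dim_BC h0))
  have h5 : Algebra.FiniteType ℤ k := by
    have : Module.Finite ℤ k := Module.Finite.of_finite
    infer_instance
  have h6 : Algebra.FiniteType ℤ k[X] := ft_alg h5 inferInstance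
  have h7 : Algebra.FiniteType ℤ (Polynomial k[X]) := ft_alg h6 inferInstance
  exact ft_of_surj h7 (AdjoinRoot.mk _) AdjoinRoot.mk_surjective

theorem cf_zero {k : Type} [Field k] (φ : k →+* K) {h : MvPolynomial (Fin 2) k}
    (hh : h.totalDegree ≤ 3) : ∀ i, i < 5 → cf φ h i (4 - i) = 0 := by
  intro i hi
  have h1 : MvPolynomial.coeff (Pool.Agent.Helper9.CQ.Thr.T i (4 - i)) h = 0 := by
    by_contra h0
    have h2 := MvPolynomial.le_totalDegree (MvPolynomial.mem_support_iff.2 h0)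
    have h3 : ((Pool.Agent.Helper9.CQ.Thr.T i (4 - i)).sum fun _ e => e) = i + (4 - i) := by
      rw [Finsupp.sum_fintype _ _ (fun _ => rfl), Fin.sum_univ_two]
      rfl
    rw [h3] at h2
    omega
  rw [cf, h1, map_zero]

/-- cylinders -/
theorem cylPt_of_cyl' {k : Type} [Field k] [Algebra k K] {h : MvPolynomial (Fin 2) k}
    (hh : h.totalDegree ≤ 3) (hc : Cyl' (cf (algebraMap k K) h)) : CylPt K h := by
  obtain ⟨q₀, q₁, hq, hinv⟩ := hc
  refine ⟨![q₀, q₁], ?_, ?_⟩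
  · intro h0
    rcases hq with hq | hq
    · exact hq (congrFun h0 0)
    · exact hq (congrFun h0 1)
  · intro x t
    have h1 : ∀ y : Fin 2 → K, MvPolynomial.aeval y h =
        F4 (cf (algebraMap k K) h) (y 0) (y 1) 1 := by
      intro y
      rw [← eval_F4 (algebraMap k K) h (hh.trans (by norm_num)), MvPolynomial.aeval_def]
      rfl
    rw [h1, h1]
    exact hinv K (x 0) (x 1) t

/-- the quadratic equation -/
theorem exists_vv [IsAlgClosed K] {w : K} (hw : w ≠ 0) (t : K) :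
    ∃ v : K, w * (v * (1 - v)) = t := by
  have hd : (C w * X ^ 2 + C (-w) * X + C t : K[X]).degree ≠ 0 := by
    rw [degree_quadratic hw]
    decide
  obtain ⟨v, hv⟩ := IsAlgClosed.exists_root _ hd
  refine ⟨v, ?_⟩
  rw [IsRoot.def] at hv
  simp only [eval_add, eval_mul, eval_C, eval_pow, eval_X] at hv
  linear_combination -hv

/-- a cubic cylinder has a symmetric axis -/
theorem axis [IsAlgClosed K] (h2 : (2 : K) ≠ 0) {al b2 b4 b6 : K} (hal : al ≠ 0) (q : K[X])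
    (h : ∀ v : K, al * (q.eval v - q.eval (1 - v)) ^ 3 + b2 * (q.eval v - q.eval (1 - v)) ^ 2 +
      b4 * (q.eval v - q.eval (1 - v)) + b6 = b6) (v : K) : q.eval v = q.eval (1 - v) := by
  set B : K[X] := C al * X ^ 3 + C b2 * X ^ 2 + C b4 * X + C 0 with hB
  set d : K[X] := q - q.comp (1 - X) with hd
  have hdv : ∀ v : K, d.eval v = q.eval v - q.eval (1 - v) := by
    intro v
    rw [hd, eval_sub, eval_comp, eval_sub, eval_one, eval_X]
  have h0 : B.comp d = 0 := by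
    apply Polynomial.funext
    intro v
    rw [eval_comp, hdv, eval_zero, hB]
    simp only [eval_add, eval_mul, eval_C, eval_pow, eval_X]
    linear_combination h v
  have h1 : d.natDegree = 0 := by
    have h3 := congrArg natDegree h0
    rw [natDegree_comp, natDegree_zero, hB, natDegree_cubic hal] at h3
    omega
  have h4 := eq_C_of_natDegree_eq_zero h1
  have h5 : d.eval (2⁻¹ : K) = 0 := by
    rw [hdv]
    have h6 : (1 : K) - 2⁻¹ = 2⁻¹ := by
      field_simp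
      norm_num
    rw [h6, sub_self]
  rw [h4, eval_C] at h5
  have h7 := hdv v
  rw [h4, eval_C, h5] at h7
  exact (sub_eq_zero.1 h7.symm)

/-- cylinders on the cone -/
theorem cylPt_of_cyl6 [IsAlgClosed K] (h2 : (2 : K) ≠ 0) {k : Type} [Field k] [Algebra k K]
    {h : MvPolynomial (Fin 2) k} (hh : h.totalDegree ≤ 3) {w : K} (hw : w ≠ 0)
    (hc : Cyl6 (cf (algebraMap k K) h 3 0) (p2 (cf (algebraMap k K) h) w)
      (p4 (cf (algebraMap k K) h) w) (p6 (cf (algebraMap k K) h) w)) : CylPt K h := by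
  set c := cf (algebraMap k K) h with hcc
  have hz : ∀ i, i < 5 → c i (4 - i) = 0 := cf_zero (algebraMap k K) hh
  have h1 : ∀ y : Fin 2 → K, MvPolynomial.aeval y h = F4 c (y 0) (y 1) 1 := by
    intro y
    rw [hcc, ← eval_F4 (algebraMap k K) h (hh.trans (by norm_num)), MvPolynomial.aeval_def]
    rfl
  have hD : ∀ v x : K, Dv (c 3 0) (p2 c w) (p4 c w) (p6 c w) v x =
      F4 c x (w * (v * (1 - v))) 1 := fun v x => dv_eq c hz w v x
  rcases hc with ⟨hal, q, hq, b2, b4, b6, hinv⟩ | ⟨hal, ha2, ha4⟩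
  · have hH : ∀ v y : K, F4 c (y + q.eval v) (w * (v * (1 - v))) 1 =
        c 3 0 * y ^ 3 + b2 * y ^ 2 + b4 * y + b6 := by
      intro v y
      have h3 := hinv K v y
      rw [hD, ← Polynomial.coe_aeval_eq_eval v] at *
      rw [h3]
      simp only [Dv, aeval_C, Algebra.algebraMap_self, RingHom.id_apply]
    have hax := axis h2 hal q (b2 := b2) (b4 := b4) (b6 := b6) (fun v => by
      have h3 := hH (1 - v) (q.eval v - q.eval (1 - v))
      have h4 := hH v 0
      have h5 : w * ((1 - v) * (1 - (1 - v))) = w * (v * (1 - v)) := by ring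
      rw [h5, sub_add_cancel] at h3
      rw [zero_add, h3] at h4
      rw [h4]
      ring)
    have h01 := hax 0
    rw [sub_zero] at h01
    have hqe : ∀ v : K, q.eval v = q.coeff 0 + q.coeff 1 * v + q.coeff 2 * v ^ 2 := by
      intro v
      rw [eval_eq_sum_range' (Nat.lt_succ_of_le hq)]
      simp [Finset.sum_range_succ]
    have h6 : q.coeff 2 = - q.coeff 1 := by
      have h7 := hqe 0
      have h8 := hqe 1
      rw [h01, h8] at h7
      linear_combination h7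
    have hq' : ∀ v : K, q.eval v = q.coeff 0 + q.coeff 1 * w⁻¹ * (w * (v * (1 - v))) := by
      intro v
      rw [hqe, h6]
      field_simp
      ring
    have hF : ∀ x t : K, F4 c x t 1 = c 3 0 * (x - (q.coeff 0 + q.coeff 1 * w⁻¹ * t)) ^ 3 +
        b2 * (x - (q.coeff 0 + q.coeff 1 * w⁻¹ * t)) ^ 2 +
        b4 * (x - (q.coeff 0 + q.coeff 1 * w⁻¹ * t)) + b6 := by
      intro x t
      obtain ⟨v, rfl⟩ := exists_vv hw t
      rw [← hq', ← hH v, sub_add_cancel]
    refine ⟨![q.coeff 1 * w⁻¹, 1], fun h0 => one_ne_zero (congrFun h0 1), ?_⟩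
    intro x t
    rw [h1, h1, hF, hF]
    have h9 : x 0 + t * (![q.coeff 1 * w⁻¹, 1] : Fin 2 → K) 0 -
        (q.coeff 0 + q.coeff 1 * w⁻¹ * (x 1 + t * (![q.coeff 1 * w⁻¹, 1] : Fin 2 → K) 1)) =
        x 0 - (q.coeff 0 + q.coeff 1 * w⁻¹ * x 1) := by
      simp only [Matrix.cons_val_zero, Matrix.cons_val_one]
      ring
    rw [h9]
  · have hF : ∀ x x' t : K, F4 c x t 1 = F4 c x' t 1 := by
      intro x x' t
      obtain ⟨v, rfl⟩ := exists_vv hw t
      rw [← hD, ← hD, hal, ha2, ha4]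
      simp [Dv]
    refine ⟨![1, 0], fun h0 => one_ne_zero (congrFun h0 0), ?_⟩
    intro x t
    rw [h1, h1]
    have h9 : x 1 + t * (![1, 0] : Fin 2 → K) 1 = x 1 := by simp
    rw [h9]
    exact hF _ _ _

/-- the fibres over the line -/
theorem tower_fibre (geo : GeoMain) (cone : ConeMain) {k : Type} [Field k] [Finite k] {K : Type}
    [Field K] [IsAlgClosed K] (φ : k[X] →+* K) (h2 : (2 : K) ≠ 0)
    {G : ∀ (R : Type) [CommRing R] [Algebra K R], Prop} (hG : GOps K G)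
    (hW : ∀ (_ : Algebra k K) (W : Type) [CommRing W] [Algebra k W], Algebra.FiniteType ℤ W →
      ringKrullDim W ≤ 1 → G (K ⊗[k] W)) (h : MvPolynomial (Fin 2) k) (hh : h.totalDegree ≤ 3)
    (hcyl : ∀ _ : Algebra k K, ¬ CylPt K h) {n : ℕ} (hn : 0 < n) :
    (dblF φ (tt h) n).Mem G := by
  let _ : Algebra k K := (φ.comp C).toAlgebra
  have h3 : algebraMap k K = φ.comp C := rfl
  refine Mem.of_iso (dblF_iso φ h hh n) ?_
  rw [← h3]
  have hc := cf_zero (algebraMap k K) hh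
  by_cases hz : φ X = 0
  · rw [hz, zero_pow hn.ne']
    refine D3_zero hG _ (geo K G h2 hG _ (BC.deg_two hG _ ?_) fun h4 =>
      hcyl _ (cylPt_of_cyl' hh h4))
    have h5 : bin4 (lead (cf (algebraMap k K) h)) (X : K[X]) 1 = 0 := by
      have h6 : ∀ i : Fin 5, lead (cf (algebraMap k K) h) i = 0 := fun i => hc i i.2
      simp [bin4, h6]
    rw [h5, natDegree_zero]
    norm_num
  · have hzn : (φ X) ^ n ≠ 0 := pow_ne_zero n hz
    refine Mem.of_iso (D3_iso _ hc hzn) ?_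
    refine cone K G h2 hG _ _ _ _ (p2_deg _ _) (p4_deg _ _) (p6_deg _ _)
      (tower_inf hG (hW _) h (inv_ne_zero hzn)) fun h4 => ?_
    exact hcyl _ (cylPt_of_cyl6 h2 hh (inv_ne_zero hzn) h4)

/-- **the towers of double planes** `y ^ 2 = h(x, w ^ n)` -/
theorem tower_mem (geo : GeoMain) (cone : ConeMain) {p : ℕ} (hp : p.Prime) (hp2 : p ≠ 2)
    {P : ∀ (A : Type) [CommRing A], Prop} (hP : FormalClass p P)
    (k : Type) [Field k] [Finite k] [CharP k p] (h : MvPolynomial (Fin 2) k)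
    (hh : h.totalDegree ≤ 3) (n : ℕ) (hn : 0 < n) : P (Cyc 2 (sub n h)) := by
  refine tower_reduction hp hp2 hP ?_ k h hh n hn
  intro k _ _ _ h hh hc n hn
  refine dbl_mem hp hP k (Cyc 2 h) (ft_dp h) (tt h) n ?_
  intro K _ _ _ φ G hG hW
  have h2 : (2 : K) ≠ 0 := by
    intro h0
    have h1 := (CharP.cast_eq_zero_iff K p 2).1 (by exact_mod_cast h0)
    exact hp2 ((Nat.prime_dvd_prime_iff_eq hp Nat.prime_two).1 h1)
  exact tower_fibre geo cone φ h2 hG hW h hh (fun _ => hc K) hn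

end

end Pool.Agent.Helper9.CT
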