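import Pool.Agent.Helper9.CT.TowerFib

/-!
# Cyclic covers `w ^ n = f(x, y)` with `f` of weighted degree at most six, weights `1`, `2`
-/

set_option autoImplicit false

namespace Pool.Agent.Helper9.CT

open Pool.Agent.Helper29.CQ Pool.Agent.Helper65.CC Pool.Agent.Helper87.CC
  Pool.Agent.Helper65.CC.KFn
open Pool.Agent.Helper67.CQ
open Pool.Agent.Helper71.CT
open Pool.Agent.Helper9.CQ.Thr (T rep_BC dim_BC GeoMain)
open Polynomial TensorProduct

/-- the weighted degree is at most six -/
def Wt {k : Type} [Field k] (f : MvPolynomial (Fin 2) k) : Prop :=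
  ∀ m ∈ f.support, m 0 + 2 * m 1 ≤ 6

section

variable {k K : Type} [Field k] [Field K] (φ : k →+* K) (f : MvPolynomial (Fin 2) k)

/-- the coefficients -/
noncomputable def w3 : K := φ (MvPolynomial.coeff (T 0 3) f)

/-- the coefficients -/
noncomputable def w2 : K[X] := ∑ i ∈ Finset.range 3, C (φ (MvPolynomial.coeff (T i 2) f)) * X ^ i

/-- the coefficients -/
noncomputable def w1 : K[X] := ∑ i ∈ Finset.range 5, C (φ (MvPolynomial.coeff (T i 1) f)) * X ^ i

/-- the coefficients -/
noncomputable def w0 : K[X] := ∑ i ∈ Finset.range 7, C (φ (MvPolynomial.coeff (T i 0) f)) * X ^ i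

theorem w2_deg : (w2 φ f).natDegree ≤ 2 := by
  unfold w2
  refine natDegree_sum_le_of_forall_le _ _ fun i hi => ?_
  rw [Finset.mem_range] at hi
  exact (natDegree_C_mul_X_pow_le _ _).trans (by omega)

theorem w1_deg : (w1 φ f).natDegree ≤ 4 := by
  unfold w1
  refine natDegree_sum_le_of_forall_le _ _ fun i hi => ?_
  rw [Finset.mem_range] at hi
  exact (natDegree_C_mul_X_pow_le _ _).trans (by omega)

theorem w0_deg : (w0 φ f).natDegree ≤ 6 := by
  unfold w0
  refine natDegree_sum_le_of_forall_le _ _ fun i hi => ?_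
  rw [Finset.mem_range] at hi
  exact (natDegree_C_mul_X_pow_le _ _).trans (by omega)

theorem eval_W (hf : Wt f) {R : Type} [CommRing R] [Algebra K R] (x : Fin 2 → R) :
    MvPolynomial.eval₂ ((algebraMap K R).comp φ) x f =
      Dv (w3 φ f) (w2 φ f) (w1 φ f) (w0 φ f) (x 0) (x 1) := by
  classical
  let F : (Fin 2 →₀ ℕ) → R := fun d =>
    algebraMap K R (φ (MvPolynomial.coeff d f)) * ∏ i, x i ^ d i
  let S : Finset (Σ _ : ℕ, ℕ) := (Finset.range 4).sigma fun j => Finset.range (7 - 2 * j)
  let τ : (Σ _ : ℕ, ℕ) → (Fin 2 →₀ ℕ) := fun s => T s.2 s.1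
  have h1 : MvPolynomial.eval₂ ((algebraMap K R).comp φ) x f = ∑ d ∈ f.support, F d := by
    rw [MvPolynomial.eval₂_eq']
    rfl
  have h2 : ∑ d ∈ f.support, F d = ∑ d ∈ S.image τ, F d := by
    apply Finset.sum_subset
    · intro d hd
      have h3 := hf d hd
      rw [Finset.mem_image]
      refine ⟨⟨d 1, d 0⟩, ?_, ?_⟩
      · simp only [S, Finset.mem_sigma, Finset.mem_range]
        omega
      · ext k
        fin_cases k
        · rfl
        · rfl
    · intro d _ hd
      rw [MvPolynomial.notMem_support_iff] at hd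
      simp only [F, hd, map_zero, zero_mul]
  have h3 : ∑ d ∈ S.image τ, F d = ∑ s ∈ S, F (τ s) := by
    apply Finset.sum_image
    rintro ⟨a, b⟩ _ ⟨a', b'⟩ _ h
    have h4 : b = b' := DFunLike.congr_fun h 0
    have h5 : a = a' := DFunLike.congr_fun h 1
    rw [h4, h5]
  have h4 : ∀ i j, F (T i j) = algebraMap K R (φ (MvPolynomial.coeff (T i j) f)) *
      (x 0 ^ i * x 1 ^ j) := by
    intro i j
    simp only [F, Fin.prod_univ_two]
    rfl
  rw [h1, h2, h3, Finset.sum_sigma]
  simp only [τ, h4, Finset.sum_range_succ, Finset.sum_range_zero, Dv, w3, w2, w1, w0, map_add,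
    map_mul, map_pow, aeval_C, aeval_X, map_zero]
  ring

end

section

variable {K : Type} [Field K] {G : ∀ (R : Type) [CommRing R] [Algebra K R], Prop}

/-- the fibre in coordinates -/
def D2 (al : K) (a2 a4 a6 : K[X]) (z : K) : KFn K where
  obj S _ _ := {q : S × S × S //
    Dv al a2 a4 a6 q.1 q.2.1 * algebraMap K S z = q.2.2 * (1 - q.2.2)}
  map {S T} _ _ _ _ g q := ⟨(g q.1.1, g q.1.2.1, g q.1.2.2), by
      have h1 := congrArg g q.2
      rw [map_mul, map_mul, map_sub, map_one, g.commutes, Dv_map] at h1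
      exact h1⟩
  id_map q := rfl
  comp_map _ _ _ := rfl

/-- the fibre in coordinates -/
noncomputable def plF_iso {k : Type} [Field k] (φ : k[X] →+* K) (f : MvPolynomial (Fin 2) k)
    (hf : Wt f) (n : ℕ) :
    Iso (dblF φ f n) (D2 (w3 (φ.comp C) f) (w2 (φ.comp C) f) (w1 (φ.comp C) f) (w0 (φ.comp C) f)
      (φ X ^ n)) where
  hom {S} _ _ q := ⟨(q.1.1 (MvPolynomial.X 0), q.1.1 (MvPolynomial.X 1), q.1.2), by
    have h1 : MvPolynomial.eval₂Hom ((algebraMap K S).comp (φ.comp C))
        ![q.1.1 (MvPolynomial.X 0), q.1.1 (MvPolynomial.X 1)] = q.1.1 := by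
      apply MvPolynomial.ringHom_ext
      · intro a
        rw [MvPolynomial.eval₂Hom_C]
        exact (q.2.1 a).symm
      · intro i
        rw [MvPolynomial.eval₂Hom_X']
        fin_cases i <;> rfl
    have h2 := (eval_W (φ.comp C) f hf (R := S)
      ![q.1.1 (MvPolynomial.X 0), q.1.1 (MvPolynomial.X 1)]).symm.trans (RingHom.congr_fun h1 f)
    exact (congrArg₂ (fun a b => a * b) h2 (map_pow (algebraMap K S) (φ X) n)).trans q.2.2⟩
  inv {S} _ _ q := ⟨(MvPolynomial.eval₂Hom ((algebraMap K S).comp (φ.comp C)) ![q.1.1, q.1.2.1],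
      q.1.2.2), fun c => MvPolynomial.eval₂Hom_C _ _ _,
      (congrArg₂ (fun a b => a * b) (eval_W (φ.comp C) f hf (R := S) ![q.1.1, q.1.2.1])
        (map_pow (algebraMap K S) (φ X) n).symm).trans q.2⟩
  inv_hom {S} _ _ q := Subtype.ext (Prod.ext (by
      apply MvPolynomial.ringHom_ext
      · intro a
        rw [MvPolynomial.eval₂Hom_C]
        exact (q.2.1 a).symm
      · intro i
        rw [MvPolynomial.eval₂Hom_X']
        fin_cases i <;> rfl) rfl)
  hom_inv {S} _ _ q := Subtype.ext (Prod.ext (MvPolynomial.eval₂Hom_X' _ _ _)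
    (Prod.ext (MvPolynomial.eval₂Hom_X' _ _ _) rfl))
  nat f x := rfl

theorem dv_smul (al : K) (a2 a4 a6 : K[X]) (z : K) {S : Type} [CommRing S] [Algebra K S] (x y : S) :
    Dv (-4 * z * al) (C (-4 * z) * a2) (C (-4 * z) * a4) (1 - C (4 * z) * a6) x y =
      1 - 4 * (Dv al a2 a4 a6 x y * algebraMap K S z) := by
  have h4 : algebraMap K S 4 = 4 := map_ofNat _ 4
  simp only [Dv, map_mul, map_sub, map_one, map_neg, aeval_C, h4]
  ring

/-- the fibre over `z ≠ 0` is a double cover of the cone -/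
noncomputable def D2_iso (h2 : (2 : K) ≠ 0) (al : K) (a2 a4 a6 : K[X]) (z : K) :
    Iso (D2 al a2 a4 a6 z) (W (-4 * z * al) (C (-4 * z) * a2) (C (-4 * z) * a4)
      (1 - C (4 * z) * a6)) where
  hom {S} _ _ q := ⟨(q.1.1, q.1.2.1, 1 - 2 * q.1.2.2), by
    have h1 := q.2
    change (1 - 2 * q.1.2.2) ^ 2 - Dv _ _ _ _ q.1.1 q.1.2.1 = 0
    rw [dv_smul]
    linear_combination 4 * h1⟩
  inv {S} _ _ q := ⟨(q.1.1, q.1.2.1, algebraMap K S (2⁻¹) * (1 - q.1.2.2)), by
    have e2 : algebraMap K S (2⁻¹) * 2 = 1 := by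
      rw [← map_ofNat (algebraMap K S) 2, ← map_mul, inv_mul_cancel₀ h2, map_one]
    have h1 : q.1.2.2 ^ 2 - Dv (-4 * z * al) (C (-4 * z) * a2) (C (-4 * z) * a4)
      (1 - C (4 * z) * a6) q.1.1 q.1.2.1 = 0 := q.2
    rw [dv_smul] at h1
    change Dv al a2 a4 a6 q.1.1 q.1.2.1 * algebraMap K S z = algebraMap K S (2⁻¹) *
      (1 - q.1.2.2) * (1 - algebraMap K S (2⁻¹) * (1 - q.1.2.2))
    linear_combination (algebraMap K S (2⁻¹)) ^ 2 * h1 +
          (- (Dv al a2 a4 a6 q.1.1 q.1.2.1 * algebraMap K S z) * (1 + 2 * algebraMap K S (2⁻¹)) +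
            algebraMap K S (2⁻¹) * (1 - q.1.2.2)) * e2⟩
  inv_hom {S} _ _ q := by
    have e2 : algebraMap K S (2⁻¹) * 2 = 1 := by
      rw [← map_ofNat (algebraMap K S) 2, ← map_mul, inv_mul_cancel₀ h2, map_one]
    refine Subtype.ext (Prod.ext rfl (Prod.ext rfl ?_))
    change algebraMap K S (2⁻¹) * (1 - (1 - 2 * q.1.2.2)) = q.1.2.2
    linear_combination q.1.2.2 * e2
  hom_inv {S} _ _ q := by
    have e2 : algebraMap K S (2⁻¹) * 2 = 1 := by
      rw [← map_ofNat (algebraMap K S) 2, ← map_mul, inv_mul_cancel₀ h2, map_one]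
    refine Subtype.ext (Prod.ext rfl (Prod.ext rfl ?_))
    change 1 - 2 * (algebraMap K S (2⁻¹) * (1 - q.1.2.2)) = q.1.2.2
    linear_combination - (1 - q.1.2.2) * e2
  nat {R S} _ _ _ _ f x := Subtype.ext (Prod.ext rfl (Prod.ext rfl (by
        change f (1 - 2 * x.1.2.2) = 1 - 2 * f x.1.2.2
        rw [map_sub, map_one, map_mul, map_ofNat])))

/-- the fibre over `z = 0` consists of two planes -/
theorem D2_zero (hG : GOps K G) (al : K) (a2 a4 a6 : K[X]) : (D2 al a2 a4 a6 0).Mem G := by
  have hp : ∀ (S : Type) [CommRing S] [Algebra K S] (q : (D2 al a2 a4 a6 0).obj S),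
      q.1.2.2 * (1 - q.1.2.2) = 0 := by
    intro S _ _ q
    exact q.2.symm.trans ((congrArg (fun e => Dv al a2 a4 a6 q.1.1 q.1.2.1 * e)
      (map_zero (algebraMap K S))).trans (mul_zero _))
  let u : Coord (D2 al a2 a4 a6 0) := ⟨fun q => q.1.2.2, fun _ _ => rfl⟩
  refine Mem.glue hG.toKOps u ?_ ?_
  · refine Mem.of_iso (F' := A2 K) ?_ (mem_A2 hG)
    exact
      { hom := fun q => (q.1.1.1, q.1.1.2.1)
        inv := fun {R} _ _ q => ⟨⟨(q.1, q.2, 1), by
          change Dv al a2 a4 a6 q.1 q.2 * algebraMap K R 0 = 1 * (1 - 1)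
          rw [map_zero]
          ring⟩, isUnit_one⟩
        inv_hom := fun {R} _ _ q => by
          have h1 := hp R q.1
          have h2 : IsUnit q.1.1.2.2 := q.2
          have h3 : 1 - q.1.1.2.2 = 0 := h2.mul_right_eq_zero.1 h1
          have h4 : q.1.1.2.2 = 1 := (sub_eq_zero.1 h3).symm
          exact Subtype.ext (Subtype.ext (Prod.ext rfl (Prod.ext rfl h4.symm)))
        hom_inv := fun _ => rfl
        nat := fun _ _ => rfl }
  · refine Mem.of_iso (F' := A2 K) ?_ (mem_A2 hG)
    exact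
      { hom := fun q => (q.1.1.1, q.1.1.2.1)
        inv := fun {R} _ _ q => ⟨⟨(q.1, q.2, 0), by
          change Dv al a2 a4 a6 q.1 q.2 * algebraMap K R 0 = 0 * (1 - 0)
          rw [map_zero]
          ring⟩, rfl⟩
        inv_hom := fun {R} _ _ q => by
          have h4 : q.1.1.2.2 = 0 := q.2
          exact Subtype.ext (Subtype.ext (Prod.ext rfl (Prod.ext rfl h4.symm)))
        hom_inv := fun _ => rfl
        nat := fun _ _ => rfl }

theorem top_smul (al : K) (a2 a4 a6 : K[X]) (z : K) :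
    top (-4 * z * al) (C (-4 * z) * a2) (C (-4 * z) * a4) (1 - C (4 * z) * a6) =
      C (-4 * z) * top al a2 a4 a6 := by
  have h6 : (1 : K[X]).coeff 6 = 0 := by rw [coeff_one]; norm_num
  rw [top, coeff_C_mul, coeff_C_mul, coeff_sub, coeff_C_mul, h6, top]
  simp only [C_mul, C_sub, C_neg, C_0]
  ring

/-- the curve at infinity -/
theorem wgt_inf [IsAlgClosed K] (h2 : (2 : K) ≠ 0) (hG : GOps K G) {k : Type} [Field k]
    [Finite k] [Algebra k K] (hW : ∀ (W : Type) [CommRing W] [Algebra k W],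
      Algebra.FiniteType ℤ W → ringKrullDim W ≤ 1 → G (K ⊗[k] W)) (f : MvPolynomial (Fin 2) k)
    {z : K} (hz : z ≠ 0) :
    (BC (top (-4 * z * w3 (algebraMap k K) f) (C (-4 * z) * w2 (algebraMap k K) f)
      (C (-4 * z) * w1 (algebraMap k K) f) (1 - C (4 * z) * w0 (algebraMap k K) f))).Mem G := by
  rw [top_smul]
  refine BC.smul _ ?_ ?_
  · have h4 : (4 : K) = 2 * 2 := by norm_num
    rw [h4]
    exact mul_ne_zero (neg_ne_zero.2 (mul_ne_zero h2 h2)) hz
  let h0 : k[X] := C (MvPolynomial.coeff (T 0 3) f) * X ^ 3 +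
    C (MvPolynomial.coeff (T 2 2) f) * X ^ 2 + C (MvPolynomial.coeff (T 4 1) f) * X +
    C (MvPolynomial.coeff (T 6 0) f)
  have h1 : top (w3 (algebraMap k K) f) (w2 (algebraMap k K) f) (w1 (algebraMap k K) f)
      (w0 (algebraMap k K) f) = h0.map (algebraMap k K) := by
    simp [h0, top, w3, w2, w1, w0, Finset.sum_range_succ, coeff_X, coeff_C]
  rw [h1]
  obtain ⟨a, ha⟩ := rep_BC (K := K) h0
  refine Mem.of_rep hG.toKOps ha (hW _ ?_ (dim_BC h0))
  have h5 : Algebra.FiniteType ℤ k := by
    have : Module.Finite ℤ k := Module.Finite.of_finite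
    infer_instance
  have h6 : Algebra.FiniteType ℤ k[X] := ft_alg h5 inferInstance
  have h7 : Algebra.FiniteType ℤ (Polynomial k[X]) := ft_alg h6 inferInstance
  exact ft_of_surj h7 (AdjoinRoot.mk _) AdjoinRoot.mk_surjective

end

section

variable {k : Type} [Field k]

/-- cylinders: `f` is a polynomial in `y - q(x)`, or in `x` -/
def CylW (K : Type) [Field K] [Algebra k K] (f : MvPolynomial (Fin 2) k) : Prop :=
  (∃ q : K[X], ∀ x x' y : K, MvPolynomial.aeval ![x, y + q.eval x] f =
    MvPolynomial.aeval ![x', y + q.eval x'] f) ∨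
  (∀ x y y' : K, MvPolynomial.aeval ![x, y] f = MvPolynomial.aeval ![x, y'] f)

theorem cylW_of_cyl6 {K : Type} [Field K] [Algebra k K] (h2 : (2 : K) ≠ 0)
    {f : MvPolynomial (Fin 2) k} (hf : Wt f) {z : K} (hz : z ≠ 0)
    (hc : Cyl6 (-4 * z * w3 (algebraMap k K) f) (C (-4 * z) * w2 (algebraMap k K) f)
      (C (-4 * z) * w1 (algebraMap k K) f) (1 - C (4 * z) * w0 (algebraMap k K) f)) :
    CylW K f := by
  have h4 : (4 : K) = 2 * 2 := by norm_num
  have h40 : (4 : K) ≠ 0 := by
    rw [h4]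
    exact mul_ne_zero h2 h2
  have h1 : ∀ x y : K, MvPolynomial.aeval ![x, y] f = Dv (w3 (algebraMap k K) f)
      (w2 (algebraMap k K) f) (w1 (algebraMap k K) f) (w0 (algebraMap k K) f) x y := by
    intro x y
    have h3 := eval_W (algebraMap k K) f hf (R := K) ![x, y]
    rw [MvPolynomial.aeval_def]
    exact h3
  rcases hc with ⟨-, q, -, b2, b4, b6, hinv⟩ | ⟨hal, ha2, ha4⟩
  · refine Or.inl ⟨q, fun x x' y => ?_⟩
    rw [h1, h1]
    have h5 := hinv K x y
    have h6 := hinv K x' y
    rw [dv_smul] at h5 h6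
    have h7 : Dv (-4 * z * w3 (algebraMap k K) f) (C b2) (C b4) (C b6) x y =
        Dv (-4 * z * w3 (algebraMap k K) f) (C b2) (C b4) (C b6) x' y := by
      simp only [Dv, aeval_C]
    rw [← h5, ← h6] at h7
    rw [← Polynomial.coe_aeval_eq_eval, ← Polynomial.coe_aeval_eq_eval]
    have h8 : algebraMap K K z = z := rfl
    rw [h8] at h7
    apply mul_right_cancel₀ (mul_ne_zero h40 hz)
    linear_combination -h7
  · refine Or.inr fun x y y' => ?_
    have hnz : (-4 * z : K) ≠ 0 := mul_ne_zero (neg_ne_zero.2 h40) hz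
    have e3 : w3 (algebraMap k K) f = 0 := (mul_eq_zero.1 hal).resolve_left hnz
    have e2 : w2 (algebraMap k K) f = 0 := (mul_eq_zero.1 ha2).resolve_left (C_ne_zero.2 hnz)
    have e1 : w1 (algebraMap k K) f = 0 := (mul_eq_zero.1 ha4).resolve_left (C_ne_zero.2 hnz)
    rw [h1, h1, e3, e2, e1]
    simp [Dv]

/-- the shear `y ↦ y - q(x)` -/
noncomputable def shear (q : k[X]) : MvPolynomial (Fin 2) k ≃ₐ[k] MvPolynomial (Fin 2) k :=
  AlgEquiv.ofAlgHom
    (MvPolynomial.aeval ![MvPolynomial.X 0, MvPolynomial.X 1 -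
      aeval (MvPolynomial.X 0 : MvPolynomial (Fin 2) k) q])
    (MvPolynomial.aeval ![MvPolynomial.X 0, MvPolynomial.X 1 +
      aeval (MvPolynomial.X 0 : MvPolynomial (Fin 2) k) q])
    (by
      apply MvPolynomial.algHom_ext
      intro i
      fin_cases i
      · simp
      · simp [← aeval_algHom_apply])
    (by
      apply MvPolynomial.algHom_ext
      intro i
      fin_cases i
      · simp
      · simp [← aeval_algHom_apply])

/-- the coordinates `y - q(x)`, `x` -/
noncomputable def eQ (q : k[X]) : k[X][X] ≃+* MvPolynomial (Fin 2) k :=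
  eY.trans (shear q).toRingEquiv

theorem eQ_C (q g : k[X]) : eQ q (C g) = aeval (MvPolynomial.X 1 -
    aeval (MvPolynomial.X 0 : MvPolynomial (Fin 2) k) q : MvPolynomial (Fin 2) k) g := by
  change shear q (eY (C g)) = _
  rw [eY_C, ← aeval_algHom_apply]
  congr 1
  simp [shear]

theorem comp_const {K : Type} [Field K] {F d : K[X]} (hF : 0 < F.natDegree) {a : K}
    (h : F.comp d = C a) : ∃ b, d = C b := by
  have h1 := congrArg natDegree h
  rw [natDegree_comp, natDegree_C] at h1
  have h2 : d.natDegree = 0 := (Nat.mul_eq_zero.1 h1).resolve_left hF.ne'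
  exact ⟨_, eq_C_of_natDegree_eq_zero h2⟩

/-- the coordinates of a cylinder -/
theorem exists_coordW [Finite k] {K : Type} [Field K] [IsAlgClosed K] [Algebra k K]
    (f : MvPolynomial (Fin 2) k) (h : CylW K f) :
    ∃ (g : k[X]) (e : k[X][X] ≃+* MvPolynomial (Fin 2) k), f = e (C g) := by
  have := Fintype.ofFinite k
  have hinj : Function.Injective (MvPolynomial.map (σ := Fin 2) (algebraMap k K)) :=
    MvPolynomial.map_injective _ (algebraMap k K).injective
  have hext : ∀ f₁ f₂ : MvPolynomial (Fin 2) k, (∀ x : Fin 2 → K, MvPolynomial.aeval x f₁ =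
      MvPolynomial.aeval x f₂) → f₁ = f₂ := by
    intro f₁ f₂ h
    apply hinj
    apply MvPolynomial.funext
    intro x
    rw [MvPolynomial.eval_map, MvPolynomial.eval_map]
    exact h x
  have hvec : ∀ x : Fin 2 → K, x = ![x 0, x 1] := by
    intro x
    funext i
    fin_cases i <;> rfl
  -- a polynomial in `x`
  have caseB : (∀ x y y' : K, MvPolynomial.aeval ![x, y] f = MvPolynomial.aeval ![x, y'] f) →
      ∃ (g : k[X]) (e : k[X][X] ≃+* MvPolynomial (Fin 2) k), f = e (C g) := by
    intro hc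
    refine ⟨MvPolynomial.aeval ![X, 0] f, eB, ?_⟩
    rw [eB_C]
    apply hext
    intro x
    rw [hvec x, hc (x 0) (x 1) 0]
    have h1 : MvPolynomial.aeval ![x 0, x 1] ((aeval (MvPolynomial.X 0 : MvPolynomial (Fin 2) k))
        (MvPolynomial.aeval ![(X : k[X]), 0] f)) =
        (((MvPolynomial.aeval ![x 0, x 1]).comp (aeval (MvPolynomial.X 0 :
          MvPolynomial (Fin 2) k))).comp (MvPolynomial.aeval ![(X : k[X]), 0])) f := rfl
    rw [h1]
    congr 1
    apply MvPolynomial.algHom_ext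
    intro i
    fin_cases i
    · simp
    · simp
  rcases h with ⟨q, hq⟩ | h
  · set F : k[X] := MvPolynomial.aeval ![(0 : k[X]), X] f with hF
    have hFe : ∀ y : K, aeval y F = MvPolynomial.aeval ![0, y] f := by
      intro y
      have h1 : aeval y F = ((aeval y).comp (MvPolynomial.aeval ![(0 : k[X]), X])) f := rfl
      rw [h1]
      congr 1
      apply MvPolynomial.algHom_ext
      intro i
      fin_cases i
      · simp
      · simp
    -- normalisation
    set r : K[X] := q - C (q.eval 0) with hr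
    have hr0 : r.eval 0 = 0 := by simp [hr]
    have hfr : ∀ x y : K, MvPolynomial.aeval ![x, y + r.eval x] f = aeval y F := by
      intro x y
      rw [hFe]
      have h1 := hq x 0 (y - q.eval 0)
      rw [sub_add_cancel] at h1
      rw [← h1, hr, eval_sub, eval_C]
      congr 2
      ring
    have hfr' : ∀ x y : K, MvPolynomial.aeval ![x, y] f = aeval (y - r.eval x) F := by
      intro x y
      rw [← hfr x (y - r.eval x), sub_add_cancel]
    by_cases hFd : F.natDegree = 0
    · apply caseB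
      intro x y y'
      rw [hfr', hfr', eq_C_of_natDegree_eq_zero hFd, aeval_C, aeval_C]
    set φ : K →ₐ[k] K := FiniteField.frobeniusAlgHom k K with hφ
    have hφx : ∀ x : K, φ x = x ^ Fintype.card k := fun x => rfl
    have hsurj : ∀ x : K, ∃ y, φ y = x := fun x => by
      obtain ⟨y, hy⟩ := IsAlgClosed.exists_pow_nat_eq x (Fintype.card_pos (α := k))
      exact ⟨y, hy⟩
    set s : K[X] := r.map (φ : K →+* K) with hs
    have hse : ∀ x : K, s.eval (φ x) = φ (r.eval x) := by
      intro x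
      rw [hs]
      exact eval_map_apply _ _
    have hfs : ∀ x y : K, MvPolynomial.aeval ![x, y + s.eval x] f = aeval y F := by
      intro x y
      obtain ⟨x', rfl⟩ := hsurj x
      obtain ⟨y', rfl⟩ := hsurj y
      have h1 : ![φ x', φ y' + s.eval (φ x')] = fun i => φ (![x', y' + r.eval x'] i) := by
        funext i
        fin_cases i
        · rfl
        · simp [hse]
      have h2 : MvPolynomial.aeval (fun i => φ (![x', y' + r.eval x'] i)) f =
          φ (MvPolynomial.aeval ![x', y' + r.eval x'] f) := by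
        rw [← AlgHom.comp_apply]
        congr 1
        apply MvPolynomial.algHom_ext
        intro i
        simp
      rw [h1, h2, hfr, ← aeval_algHom_apply]
    have hd : ∀ x : K, r.eval x = s.eval x := by
      have h1 : (F.map (algebraMap k K)).comp (r - s) = C (aeval (0 : K) F) := by
        apply Polynomial.funext
        intro x
        rw [eval_comp, eval_C, eval_map_algebraMap, eval_sub]
        have h2 := hfr' x (r.eval x + (r.eval x - s.eval x) - (r.eval x - s.eval x))
        have h3 := hfs x (r.eval x - s.eval x)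
        rw [sub_add_cancel, hfr', sub_self] at h3
        exact h3.symm
      obtain ⟨b, hb⟩ := comp_const (by
        rw [natDegree_map]
        exact Nat.pos_of_ne_zero hFd) h1
      have h4 := congrArg (eval 0) hb
      have h5 : s.eval 0 = 0 := by
        have := hse 0
        rwa [map_zero, hr0, map_zero] at this
      rw [eval_sub, hr0, h5, eval_C, sub_zero] at h4
      intro x
      have h6 := congrArg (eval x) hb
      rw [eval_sub, eval_C, ← h4, sub_eq_zero] at h6
      exact h6
    have hrs : r = s := Polynomial.funext hd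
    have hcoef : ∀ i, ∃ c : k, algebraMap k K c = r.coeff i := by
      intro i
      apply root_mem
      have h1 := congrArg (fun p => coeff p i) hrs
      simp only [hs, coeff_map] at h1
      exact h1.symm
    obtain ⟨q₀, hq₀⟩ : ∃ q₀ : k[X], q₀.map (algebraMap k K) = r := by
      choose c hc using hcoef
      refine ⟨∑ i ∈ Finset.range (r.natDegree + 1), C (c i) * X ^ i, ?_⟩
      rw [Polynomial.map_sum]
      simp only [Polynomial.map_mul, map_C, Polynomial.map_pow, map_X, hc]
      exact (as_sum_range_C_mul_X_pow r).symm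
    refine ⟨F, eQ q₀, ?_⟩
    rw [eQ_C]
    apply hext
    intro x
    have h1 : MvPolynomial.aeval x (aeval (MvPolynomial.X 1 -
        aeval (MvPolynomial.X 0 : MvPolynomial (Fin 2) k) q₀ : MvPolynomial (Fin 2) k) F) =
        aeval (x 1 - r.eval (x 0)) F := by
      rw [← aeval_algHom_apply, map_sub, MvPolynomial.aeval_X, ← aeval_algHom_apply,
        MvPolynomial.aeval_X, ← hq₀, eval_map_algebraMap]
    rw [h1, ← hfr', ← hvec]
  · exact caseB h

/-- the fibres over the line -/
theorem wgt_fibre (cone : ConeMain) [Finite k] {K : Type}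
    [Field K] [IsAlgClosed K] (φ : k[X] →+* K) (h2 : (2 : K) ≠ 0)
    {G : ∀ (R : Type) [CommRing R] [Algebra K R], Prop} (hG : GOps K G)
    (hW : ∀ (_ : Algebra k K) (W : Type) [CommRing W] [Algebra k W], Algebra.FiniteType ℤ W →
      ringKrullDim W ≤ 1 → G (K ⊗[k] W)) (f : MvPolynomial (Fin 2) k) (hf : Wt f)
    (hcyl : ∀ _ : Algebra k K, ¬ CylW K f) {n : ℕ} (hn : 0 < n) :
    (dblF φ f n).Mem G := by
  let _ : Algebra k K := (φ.comp C).toAlgebra
  have h3 : algebraMap k K = φ.comp C := rfl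
  refine Mem.of_iso (plF_iso φ f hf n) ?_
  rw [← h3]
  by_cases hz : φ X = 0
  · rw [hz, zero_pow hn.ne']
    exact D2_zero hG _ _ _ _
  · have hzn : (φ X) ^ n ≠ 0 := pow_ne_zero n hz
    refine Mem.of_iso (D2_iso h2 _ _ _ _ _) ?_
    refine cone K G h2 hG _ _ _ _ ((natDegree_C_mul_le _ _).trans (w2_deg _ _))
      ((natDegree_C_mul_le _ _).trans (w1_deg _ _)) ?_ (wgt_inf h2 hG (hW _) f hzn) fun h4 => ?_
    · refine (natDegree_sub_le _ _).trans (max_le ?_ ((natDegree_C_mul_le _ _).trans
        (w0_deg _ _)))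
      rw [natDegree_one]
      norm_num
    · exact hcyl _ (cylW_of_cyl6 h2 hf hzn h4)

/-- **the cyclic covers** `w ^ n = f(x, y)`, `f` of weighted degree at most six -/
theorem wgt_mem (cone : ConeMain) {p : ℕ} (hp : p.Prime) (hp2 : p ≠ 2)
    {P : ∀ (A : Type) [CommRing A], Prop} (hP : FormalClass p P)
    (k : Type) [Field k] [Finite k] [CharP k p] (f : MvPolynomial (Fin 2) k)
    (hf : Wt f) (n : ℕ) (hn : 0 < n) : P (Cyc n f) := by
  have hpp : Fact p.Prime := ⟨hp⟩
  have hk : (p : k) = 0 := CharP.cast_eq_zero k p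
  induction n using Nat.strong_induction_on generalizing f with
  | _ n ih =>
  by_cases hpn : p ∣ n
  · obtain ⟨m, rfl⟩ := hpn
    have hm : 0 < m := Nat.pos_of_mul_pos_left hn
    obtain ⟨φ, hφ⟩ := ex_root hk f
    have hg : Wt (MvPolynomial.map φ f) := fun m hm => hf m (MvPolynomial.support_map_subset φ f hm)
    exact insep hP hk f _ hφ (ih m (by nlinarith [hp.two_le]) _ hg hm)
  · by_cases hc : ∀ (K : Type) [Field K] [IsAlgClosed K] [Algebra k K], ¬ CylW K f
    · refine kum_plane hP hk hpn ?_ ?_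
      · rintro rfl
        apply hc (AlgebraicClosure k)
        refine Or.inr fun x y y' => ?_
        rw [map_zero, map_zero]
      · refine dbl_mem hp hP k (MvPolynomial (Fin 2) k) ft_plane f n ?_
        intro K _ _ _ φ G hG hW
        have h2 : (2 : K) ≠ 0 := by
          intro h0
          have h1 := (CharP.cast_eq_zero_iff K p 2).1 (by exact_mod_cast h0)
          exact hp2 ((Nat.prime_dvd_prime_iff_eq hp Nat.prime_two).1 h1)
        exact wgt_fibre cone φ h2 hG hW f hf (fun _ => hc K) hn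
    · push Not at hc
      obtain ⟨K, hK1, hK2, hK3, hc⟩ := hc
      obtain ⟨g, e, rfl⟩ := exists_coordW f hc
      exact cyl hP hk hn g e

end

end Pool.Agent.Helper9.CT
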