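import Pool.Agent.Helper9.CT.Wgt
import Pool.Agent.Helper29.CQ.Main
import Pool.Agent.Helper49.CT.ConeMem
import Pool.Agent.Helper71.CT.Dich

/-!
# The towers and the weighted cyclic covers, unconditionally
-/

set_option autoImplicit false

namespace Pool.Agent.Helper9.CT

open Pool.Agent.Helper29.CQ
open Pool.Agent.Helper9.CQ.Thr (GeoMain)

theorem geoMain : GeoMain := fun _ _ _ _ h2 hG c hinf hcyl => geo_main h2 hG c hinf hcyl

theorem coneMain : ConeMain := fun _ _ _ _ h2 hG al a2 a4 a6 d2 d4 d6 hinf hcyl =>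
  Pool.Agent.Helper49.CT.cone_mem hG h2 (fun c h3 h4 => geo_main h2 hG c h3 h4) al a2 a4 a6 d2 d4
    d6 (fun hal => Pool.Agent.Helper71.CT.dich h2 al hal a2 a4 a6 d2 d4 d6) hinf hcyl

/-- the towers of double planes `y ^ 2 = h(x, w ^ n)`, `deg h ≤ 3` -/
theorem towers {p : ℕ} (hp : p.Prime) (hp2 : p ≠ 2) {P : ∀ (A : Type) [CommRing A], Prop}
    (hP : FormalClass p P) (k : Type) [Field k] [Finite k] [CharP k p]
    (h : MvPolynomial (Fin 2) k) (hh : h.totalDegree ≤ 3) (n : ℕ) (hn : 0 < n) :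
    P (Cyc 2 (sub n h)) := tower_mem geoMain coneMain hp hp2 hP k h hh n hn

/-- the cyclic covers `w ^ n = f(x, y)`, `f` of weighted degree at most six -/
theorem wgts {p : ℕ} (hp : p.Prime) (hp2 : p ≠ 2) {P : ∀ (A : Type) [CommRing A], Prop}
    (hP : FormalClass p P) (k : Type) [Field k] [Finite k] [CharP k p]
    (f : MvPolynomial (Fin 2) k) (hf : Wt f) (n : ℕ) (hn : 0 < n) : P (Cyc n f) :=
  wgt_mem coneMain hp hp2 hP k f hf n hn

end Pool.Agent.Helper9.CT
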