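import Pool.Agent.Helper9.CT.Fibres
import Pool.Agent.Helper67.CQ.Z2

/-!
# Towers of double planes `y ^ 2 = h(x, w ^ n)`: the reduction
-/

set_option autoImplicit false

namespace Pool.Agent.Helper9.CT

open Pool.Agent.Helper29.CQ Pool.Agent.Helper87.CC
open Pool.Agent.Helper67.CQ
open Polynomial

variable {p : ℕ} {P : ∀ (A : Type) [CommRing A], Prop}

section

variable {k : Type} [Field k]

/-- the polynomial `h(x, w ^ n)` -/
noncomputable def sub (n : ℕ) (h : MvPolynomial (Fin 2) k) : MvPolynomial (Fin 2) k :=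
  MvPolynomial.bind₁ ![MvPolynomial.X 0, MvPolynomial.X 1 ^ n] h

/-- the coordinate `t` (the second variable) on the double plane of `h` -/
noncomputable abbrev tt (h : MvPolynomial (Fin 2) k) : Cyc 2 h :=
  AdjoinRoot.of (X ^ 2 - C h : Polynomial (MvPolynomial (Fin 2) k)) (MvPolynomial.X 1)

/-- the double plane of `h(x, w ^ n)` is a Kummer extension of the double plane of `h(x, t)` -/
theorem tower_kum (n : ℕ) (h : MvPolynomial (Fin 2) k) :
    ∃ i : Cyc 2 h →+* Cyc 2 (sub n h), IsKum i (tt (sub n h)) n (tt h) := by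
  have hK := isKum_std 2 h
  have hK' := isKum_std 2 (sub n h)
  set o := AdjoinRoot.of (X ^ 2 - C h : Polynomial (MvPolynomial (Fin 2) k)) with ho
  set o' := AdjoinRoot.of (X ^ 2 - C (sub n h) : Polynomial (MvPolynomial (Fin 2) k)) with ho'
  set y := AdjoinRoot.root (X ^ 2 - C h : Polynomial (MvPolynomial (Fin 2) k)) with hy
  set y' := AdjoinRoot.root (X ^ 2 - C (sub n h) : Polynomial (MvPolynomial (Fin 2) k)) with hy'
  let b : MvPolynomial (Fin 2) k →+* MvPolynomial (Fin 2) k :=
    ((MvPolynomial.bind₁ ![MvPolynomial.X 0, MvPolynomial.X 1 ^ n] :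
      MvPolynomial (Fin 2) k →ₐ[k] MvPolynomial (Fin 2) k) : _ →+* _)
  have hb : b h = sub n h := rfl
  have hbC : ∀ c, b (MvPolynomial.C c) = MvPolynomial.C c := fun c => by
    simp [b]
  have hb0 : b (MvPolynomial.X 0) = MvPolynomial.X 0 := by simp [b]
  have hb1 : b (MvPolynomial.X 1) = MvPolynomial.X 1 ^ n := by simp [b]
  obtain ⟨i, hi1, hi2⟩ := hK.ex _ (o'.comp b) y' (by
    rw [RingHom.comp_apply, hb]
    exact hK'.rel)
  have hi : ∀ g, i (o g) = o' (b g) := fun g => RingHom.congr_fun hi1 g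
  refine ⟨i, ?_, ?_, ?_⟩
  · change (o' (MvPolynomial.X 1)) ^ n = i (o (MvPolynomial.X 1))
    rw [hi, hb1, map_pow]
  · intro E _ v c hc
    have hc' : c ^ n = v (o (MvPolynomial.X 1)) := hc
    let u : MvPolynomial (Fin 2) k →+* E :=
      MvPolynomial.eval₂Hom ((v.comp o).comp MvPolynomial.C) ![v (o (MvPolynomial.X 0)), c]
    have hub : u.comp b = v.comp o := by
      apply MvPolynomial.ringHom_ext
      · intro r
        rw [RingHom.comp_apply, hbC]
        exact MvPolynomial.eval₂Hom_C _ _ _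
      · intro j
        fin_cases j
        · change u (b (MvPolynomial.X 0)) = v (o (MvPolynomial.X 0))
          rw [hb0]
          simp [u]
        · change u (b (MvPolynomial.X 1)) = v (o (MvPolynomial.X 1))
          rw [hb1, ← hc', map_pow]
          simp [u]
    obtain ⟨g, hg1, hg2⟩ := hK'.ex E u (v y) (by
      rw [← hb, ← RingHom.comp_apply, hub, RingHom.comp_apply, ← map_pow]
      exact congrArg v hK.rel)
    refine ⟨g, ?_, ?_⟩
    · refine hK.uniq E _ _ ?_ ?_
      · rw [RingHom.comp_assoc]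
        change g.comp (i.comp o) = v.comp o
        rw [hi1, ← RingHom.comp_assoc]
        change (g.comp o').comp b = _
        rw [hg1, hub]
      · change g (i y) = v y
        rw [hi2, hg2]
    · have := RingHom.congr_fun hg1 (MvPolynomial.X 1)
      change g (o' (MvPolynomial.X 1)) = c
      change g (o' (MvPolynomial.X 1)) = u (MvPolynomial.X 1) at this
      rw [this]
      simp [u]
  · intro E _ g g' hgg hw
    refine hK'.uniq E _ _ ?_ ?_
    · apply MvPolynomial.ringHom_ext
      · intro r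
        change g (o' (MvPolynomial.C r)) = g' (o' (MvPolynomial.C r))
        rw [← hbC r, ← hi]
        exact RingHom.congr_fun hgg _
      · intro j
        fin_cases j
        · change g (o' (MvPolynomial.X 0)) = g' (o' (MvPolynomial.X 0))
          rw [← hb0, ← hi]
          exact RingHom.congr_fun hgg _
        · exact hw
    · change g y' = g' y'
      rw [← hi2]
      exact RingHom.congr_fun hgg y

/-- curves on double planes -/
theorem dim_dp (h : MvPolynomial (Fin 2) k) {g : MvPolynomial (Fin 2) k} (hg : g ≠ 0) :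
    ringKrullDim (Cyc 2 h ⧸ Ideal.span {AdjoinRoot.of (X ^ 2 - C h :
      Polynomial (MvPolynomial (Fin 2) k)) g}) ≤ 1 := by
  set o := AdjoinRoot.of (X ^ 2 - C h : Polynomial (MvPolynomial (Fin 2) k)) with ho
  let f : MvPolynomial (Fin 2) k →+* Cyc 2 h ⧸ Ideal.span {o g} :=
    (Ideal.Quotient.mk (Ideal.span {o g})).comp o
  have hf : f.IsIntegral := by
    have hm : (X ^ 2 - C h : Polynomial (MvPolynomial (Fin 2) k)).Monic :=
      monic_X_pow_sub_C _ two_ne_zero
    have h1 : Module.Finite (MvPolynomial (Fin 2) k) (Cyc 2 h) := hm.finite_adjoinRoot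
    have h2 : Algebra.IsIntegral (MvPolynomial (Fin 2) k) (Cyc 2 h) := Algebra.IsIntegral.of_finite _ _
    have h3 : o.IsIntegral := h2.isIntegral
    exact h3.trans _ _ (RingHom.isIntegral_of_surjective _ Ideal.Quotient.mk_surjective)
  have h0 : ∀ a ∈ Ideal.span {g}, f a = 0 := by
    intro a ha
    obtain ⟨c, rfl⟩ := Ideal.mem_span_singleton'.1 ha
    rw [map_mul]
    have : f g = 0 := Ideal.Quotient.eq_zero_iff_mem.2 (Ideal.mem_span_singleton_self _)
    rw [this, mul_zero]
  let f' : MvPolynomial (Fin 2) k ⧸ Ideal.span {g} →+* Cyc 2 h ⧸ Ideal.span {o g} :=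
    Ideal.Quotient.lift _ f h0
  have hf' : f'.IsIntegral := by
    have h4 : f'.comp (Ideal.Quotient.mk (Ideal.span {g})) = f := Ideal.Quotient.lift_comp_mk _ _ h0
    refine RingHom.IsIntegral.tower_top (Ideal.Quotient.mk (Ideal.span {g})) f' ?_
    rw [h4]
    exact hf
  let _ : Algebra (MvPolynomial (Fin 2) k ⧸ Ideal.span {g}) (Cyc 2 h ⧸ Ideal.span {o g}) :=
    f'.toAlgebra
  have h5 : Algebra.IsIntegral (MvPolynomial (Fin 2) k ⧸ Ideal.span {g})
      (Cyc 2 h ⧸ Ideal.span {o g}) := ⟨hf'⟩
  exact (Pool.Agent.Helper62.TS.dim_integral_le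
    (R := MvPolynomial (Fin 2) k ⧸ Ideal.span {g})).trans (dim_quot hg)

theorem ft_dp [Finite k] (h : MvPolynomial (Fin 2) k) : Algebra.FiniteType ℤ (Cyc 2 h) :=
  (isKum_std 2 h).ft ft_plane

theorem char_dp (hk : (p : k) = 0) (h : MvPolynomial (Fin 2) k) : ((p : ℕ) : Cyc 2 h) = 0 :=
  (isKum_std 2 h).char (char_plane hk)

theorem curve_dp [Finite k] (hP : FormalClass p P) (hk : (p : k) = 0) (h : MvPolynomial (Fin 2) k)
    {g : MvPolynomial (Fin 2) k} (hg : g ≠ 0) : P (Cyc 2 h ⧸ Ideal.span {AdjoinRoot.of (X ^ 2 - C h :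
      Polynomial (MvPolynomial (Fin 2) k)) g}) := by
  refine hP.curve _ (ft_of_surj (ft_dp h) (Ideal.Quotient.mk _) Ideal.Quotient.mk_surjective) ?_
    (dim_dp h hg)
  rw [← map_natCast (Ideal.Quotient.mk _), char_dp hk h, map_zero]

/-- the towers from the threefolds -/
theorem tower_of_dbl [Finite k] (hP : FormalClass p P) (hk : (p : k) = 0) {n : ℕ} (hn : ¬ p ∣ n)
    (h : MvPolynomial (Fin 2) k) (h3 : P (Dbl (Cyc 2 h) n (tt h))) : P (Cyc 2 (sub n h)) := by
  obtain ⟨i, hi⟩ := tower_kum n h
  refine iso_kum hP (isKum_std n (tt h)) hi ?_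
  exact kum hP (ft_dp h) (char_dp hk h) hn (curve_dp hP hk h (MvPolynomial.X_ne_zero 1)) h3

/-- the polynomial `f` is invariant under the translations of `K ^ 2` in one direction -/
def CylPt (K : Type) [Field K] [Algebra k K] (f : MvPolynomial (Fin 2) k) : Prop :=
  ∃ q : Fin 2 → K, q ≠ 0 ∧ ∀ (x : Fin 2 → K) (t : K),
    MvPolynomial.aeval (fun i => x i + t * q i) f = MvPolynomial.aeval x f

/-- a polynomial which is invariant under the translations in one direction -/
theorem exists_coord' [Finite k] {K : Type} [Field K] [IsAlgClosed K] [Algebra k K] (f : MvPolynomial (Fin 2) k) (h : CylPt K f) :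
    (∃ (g : k[X]) (c : k), f = aeval (MvPolynomial.X 1 - MvPolynomial.C c * MvPolynomial.X 0 :
      MvPolynomial (Fin 2) k) g) ∨
    (∃ g : k[X], f = aeval (MvPolynomial.X 0 : MvPolynomial (Fin 2) k) g) := by
  have := Fintype.ofFinite k
  obtain ⟨q, hq0, hq⟩ := h
  have hF : ∀ (x : Fin 2 → K) (t : K), MvPolynomial.aeval (fun i => x i + t * q i) f = MvPolynomial.aeval x f :=
    fun x t => hq x t
  have hinj : Function.Injective (MvPolynomial.map (σ := Fin 2) (algebraMap k K)) :=
    MvPolynomial.map_injective _ (algebraMap k K).injective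
  have hext : ∀ f₁ f₂ : MvPolynomial (Fin 2) k, (∀ x : Fin 2 → K, MvPolynomial.aeval x f₁ = MvPolynomial.aeval x f₂) → f₁ = f₂ := by
    intro f₁ f₂ h
    apply hinj
    apply MvPolynomial.funext
    intro x
    rw [MvPolynomial.eval_map, MvPolynomial.eval_map]
    exact h x
  -- a polynomial in `y - c x`
  have caseA : ∀ c : k, (∀ (x : Fin 2 → K), MvPolynomial.aeval x f =
      MvPolynomial.aeval ![0, x 1 - algebraMap k K c * x 0] f) → ∃ (g : k[X]) (c : k),
      f = aeval (MvPolynomial.X 1 - MvPolynomial.C c * MvPolynomial.X 0 :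
      MvPolynomial (Fin 2) k) g := by
    intro c hc
    refine ⟨MvPolynomial.aeval ![0, X] f, c, ?_⟩
    apply hext
    intro x
    rw [hc]
    have h1 : MvPolynomial.aeval x ((aeval (MvPolynomial.X 1 - MvPolynomial.C c * MvPolynomial.X 0 : MvPolynomial (Fin 2) k))
        (MvPolynomial.aeval ![0, (X : k[X])] f)) =
        (((MvPolynomial.aeval x).comp (aeval (MvPolynomial.X 1 - MvPolynomial.C c * MvPolynomial.X 0 : MvPolynomial (Fin 2) k))).comp
          (MvPolynomial.aeval ![0, (X : k[X])])) f := rfl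
    rw [h1]
    congr 1
    apply MvPolynomial.algHom_ext
    intro i
    fin_cases i
    · simp
    · simp
  have caseB : (∀ (x : Fin 2 → K), MvPolynomial.aeval x f = MvPolynomial.aeval ![x 0, 0] f) →
      ∃ g : k[X], f = aeval (MvPolynomial.X 0 : MvPolynomial (Fin 2) k) g := by
    intro hc
    refine ⟨MvPolynomial.aeval ![X, 0] f, ?_⟩
    apply hext
    intro x
    rw [hc]
    have h1 : MvPolynomial.aeval x ((aeval (MvPolynomial.X 0 : MvPolynomial (Fin 2) k)) (MvPolynomial.aeval ![(X : k[X]), 0] f)) =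
        (((MvPolynomial.aeval x).comp (aeval (MvPolynomial.X 0 : MvPolynomial (Fin 2) k))).comp
          (MvPolynomial.aeval ![(X : k[X]), 0])) f := rfl
    rw [h1]
    congr 1
    apply MvPolynomial.algHom_ext
    intro i
    fin_cases i
    · simp
    · simp
  by_cases h0 : q 0 = 0
  · have h1 : q 1 ≠ 0 := by
      intro h1
      apply hq0
      funext i
      fin_cases i
      · exact h0
      · exact h1
    refine Or.inr (caseB ?_)
    intro x
    rw [← hF x (-(x 1 / q 1))]
    congr 1
    congr 1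
    funext i
    fin_cases i
    · simp [h0]
    · simp [h1]
  · set φ : K →ₐ[k] K := FiniteField.frobeniusAlgHom k K with hφ
    have hφx : ∀ x : K, φ x = x ^ Fintype.card k := fun x => rfl
    have hsurj : ∀ x : K, ∃ y, φ y = x := fun x => by
      obtain ⟨y, hy⟩ := IsAlgClosed.exists_pow_nat_eq x (Fintype.card_pos (α := k))
      exact ⟨y, hy⟩
    have hFφ : ∀ x : Fin 2 → K, MvPolynomial.aeval (fun i => φ (x i)) f = φ (MvPolynomial.aeval x f) := fun x => by
      rw [← AlgHom.comp_apply]
      congr 1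
      apply MvPolynomial.algHom_ext
      intro i
      simp
    have hF' : ∀ (x : Fin 2 → K) (t : K), MvPolynomial.aeval (fun i => x i + t * φ (q i)) f =
        MvPolynomial.aeval x f := by
      intro x t
      obtain ⟨s, hs⟩ := hsurj t
      choose y hy using fun i => hsurj (x i)
      have h1 : (fun i => x i + t * φ (q i)) = fun i => φ (y i + s * q i) := by
        funext i
        rw [map_add, map_mul, hy, hs]
      have h2 : x = fun i => φ (y i) := by
        funext i
        rw [hy]
      rw [h1, hFφ, hF, ← hFφ, ← h2]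
    set θ : K := q 1 / q 0 with hθ
    by_cases hθ1 : θ ^ Fintype.card k = θ
    · obtain ⟨c, hc⟩ := root_mem hθ1
      refine Or.inl (caseA c ?_)
      intro x
      rw [← hF x (-(x 0 / q 0)), hc]
      congr 1
      congr 1
      funext i
      fin_cases i
      · simp [h0]
      · simp only [hθ, Fin.mk_one, Matrix.cons_val_one, Matrix.cons_val_zero]
        field_simp
        ring
    · have hφ0 : φ (q 0) ≠ 0 := by
        rw [hφx]
        exact pow_ne_zero _ h0
      have hφθ : φ (q 1) = φ θ * φ (q 0) := by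
        rw [← map_mul, hθ, div_mul_cancel₀ _ h0]
      refine Or.inr (caseB ?_)
      intro x
      -- translate by `a q + b φ(q)` with first coordinate zero and second coordinate `- x 1`
      have hd : φ θ - θ ≠ 0 := by
        rw [hφx]
        exact sub_ne_zero.2 hθ1
      set b : K := -(x 1) / ((φ θ - θ) * φ (q 0)) with hb
      set a : K := (x 1) / ((φ θ - θ) * q 0) with ha
      rw [← hF x a, ← hF' _ b]
      congr 1
      congr 1
      funext i
      fin_cases i
      · simp only [Fin.zero_eta, Matrix.cons_val_zero, ha, hb]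
        field_simp
        ring
      · simp only [Fin.mk_one, Matrix.cons_val_one, Matrix.cons_val_zero, ha, hb, hφθ]
        have hq1 : q 1 = θ * q 0 := by rw [hθ, div_mul_cancel₀ _ h0]
        rw [hq1]
        field_simp
        ring



/-- the double plane of `f(x ^ n, w)` is a Kummer extension of the double plane of `f` -/
noncomputable def sub0 (n : ℕ) (h : MvPolynomial (Fin 2) k) : MvPolynomial (Fin 2) k :=
  MvPolynomial.bind₁ ![MvPolynomial.X 0 ^ n, MvPolynomial.X 1] h

theorem kum0 (n : ℕ) (h : MvPolynomial (Fin 2) k) :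
    ∃ i : Cyc 2 h →+* Cyc 2 (sub0 n h), IsKum i
      (AdjoinRoot.of (X ^ 2 - C (sub0 n h) : Polynomial (MvPolynomial (Fin 2) k))
        (MvPolynomial.X 0)) n
      (AdjoinRoot.of (X ^ 2 - C h : Polynomial (MvPolynomial (Fin 2) k)) (MvPolynomial.X 0)) := by
  have hK := isKum_std 2 h
  have hK' := isKum_std 2 (sub0 n h)
  set o := AdjoinRoot.of (X ^ 2 - C h : Polynomial (MvPolynomial (Fin 2) k)) with ho
  set o' := AdjoinRoot.of (X ^ 2 - C (sub0 n h) : Polynomial (MvPolynomial (Fin 2) k)) with ho'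
  set y := AdjoinRoot.root (X ^ 2 - C h : Polynomial (MvPolynomial (Fin 2) k)) with hy
  set y' := AdjoinRoot.root (X ^ 2 - C (sub0 n h) : Polynomial (MvPolynomial (Fin 2) k)) with hy'
  let b : MvPolynomial (Fin 2) k →+* MvPolynomial (Fin 2) k :=
    ((MvPolynomial.bind₁ ![MvPolynomial.X 0 ^ n, MvPolynomial.X 1] :
      MvPolynomial (Fin 2) k →ₐ[k] MvPolynomial (Fin 2) k) : _ →+* _)
  have hb : b h = sub0 n h := rfl
  have hbC : ∀ c, b (MvPolynomial.C c) = MvPolynomial.C c := fun c => by
    simp [b]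
  have hb0 : b (MvPolynomial.X 0) = MvPolynomial.X 0 ^ n := by simp [b]
  have hb1 : b (MvPolynomial.X 1) = MvPolynomial.X 1 := by simp [b]
  obtain ⟨i, hi1, hi2⟩ := hK.ex _ (o'.comp b) y' (by
    rw [RingHom.comp_apply, hb]
    exact hK'.rel)
  have hi : ∀ g, i (o g) = o' (b g) := fun g => RingHom.congr_fun hi1 g
  refine ⟨i, ?_, ?_, ?_⟩
  · change (o' (MvPolynomial.X 0)) ^ n = i (o (MvPolynomial.X 0))
    rw [hi, hb0, map_pow]
  · intro E _ v c hc
    have hc' : c ^ n = v (o (MvPolynomial.X 0)) := hc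
    let u : MvPolynomial (Fin 2) k →+* E :=
      MvPolynomial.eval₂Hom ((v.comp o).comp MvPolynomial.C) ![c, v (o (MvPolynomial.X 1))]
    have hub : u.comp b = v.comp o := by
      apply MvPolynomial.ringHom_ext
      · intro r
        rw [RingHom.comp_apply, hbC]
        exact MvPolynomial.eval₂Hom_C _ _ _
      · intro j
        fin_cases j
        · change u (b (MvPolynomial.X 0)) = v (o (MvPolynomial.X 0))
          rw [hb0, ← hc', map_pow]
          simp [u]
        · change u (b (MvPolynomial.X 1)) = v (o (MvPolynomial.X 1))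
          rw [hb1]
          simp [u]
    obtain ⟨g, hg1, hg2⟩ := hK'.ex E u (v y) (by
      rw [← hb, ← RingHom.comp_apply, hub, RingHom.comp_apply, ← map_pow]
      exact congrArg v hK.rel)
    refine ⟨g, ?_, ?_⟩
    · refine hK.uniq E _ _ ?_ ?_
      · rw [RingHom.comp_assoc]
        change g.comp (i.comp o) = v.comp o
        rw [hi1, ← RingHom.comp_assoc]
        change (g.comp o').comp b = _
        rw [hg1, hub]
      · change g (i y) = v y
        rw [hi2, hg2]
    · have := RingHom.congr_fun hg1 (MvPolynomial.X 0)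
      change g (o' (MvPolynomial.X 0)) = c
      change g (o' (MvPolynomial.X 0)) = u (MvPolynomial.X 0) at this
      rw [this]
      simp [u]
  · intro E _ g g' hgg hw
    refine hK'.uniq E _ _ ?_ ?_
    · apply MvPolynomial.ringHom_ext
      · intro r
        change g (o' (MvPolynomial.C r)) = g' (o' (MvPolynomial.C r))
        rw [← hbC r, ← hi]
        exact RingHom.congr_fun hgg _
      · intro j
        fin_cases j
        · exact hw
        · change g (o' (MvPolynomial.X 1)) = g' (o' (MvPolynomial.X 1))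
          rw [← hb1, ← hi]
          exact RingHom.congr_fun hgg _
    · change g y' = g' y'
      rw [← hi2]
      exact RingHom.congr_fun hgg y

/-- from `y ^ 2 = G` to `y ^ 2 = G ^ (2 s + 1)` -/
theorem odd_pow [Finite k] (hP : FormalClass p P) (hk : (p : k) = 0) (G : MvPolynomial (Fin 2) k)
    (s : ℕ) (h : P (Cyc 2 G)) : P (Cyc 2 (G ^ (2 * s + 1))) := by
  by_cases hG : G = 0
  · subst hG
    rw [zero_pow (by omega)]
    exact h
  have hK := isKum_std 2 G
  have hK' := isKum_std 2 (G ^ (2 * s + 1))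
  set o := AdjoinRoot.of (X ^ 2 - C G : Polynomial (MvPolynomial (Fin 2) k)) with ho
  set o' := AdjoinRoot.of (X ^ 2 - C (G ^ (2 * s + 1)) : Polynomial (MvPolynomial (Fin 2) k))
    with ho'
  set y := AdjoinRoot.root (X ^ 2 - C G : Polynomial (MvPolynomial (Fin 2) k)) with hy
  set y' := AdjoinRoot.root (X ^ 2 - C (G ^ (2 * s + 1)) : Polynomial (MvPolynomial (Fin 2) k))
    with hy'
  let L := Localization.Away (o G)
  let l : Cyc 2 G →+* L := algebraMap (Cyc 2 G) L
  obtain ⟨r, hr1, hr2⟩ := hK'.ex L (l.comp o) (l y * l (o G) ^ s) (by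
    rw [mul_pow, ← map_pow, hK.rel, RingHom.comp_apply, map_pow, map_pow]
    change l (o G) * _ = _
    ring)
  have hr : ∀ g, r (o' g) = l (o g) := fun g => RingHom.congr_fun hr1 g
  have hu : IsUnit (l (o G)) := IsLocalization.Away.algebraMap_isUnit (o G)
  have hLC : IsLC r ⊥ (o' G) := by
    refine ⟨?_, ?_, ?_, ?_⟩
    · intro b hb
      rw [Ideal.mem_bot.1 hb, map_zero]
    · rw [hr]
      exact hu
    · intro E _ v _ hv
      obtain ⟨w, hw⟩ := hv
      have hw' : (↑w⁻¹ : E) * v (o' G) = 1 := by rw [← hw, Units.inv_mul]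
      have hy2 : v y' ^ 2 = v (o' G) ^ (2 * s + 1) := by
        rw [← map_pow, hK'.rel, ← map_pow, ← map_pow]
      obtain ⟨g, hg1, hg2⟩ := hK.ex E (v.comp o') (v y' * (↑w⁻¹ : E) ^ s) (by
        rw [mul_pow, hy2, RingHom.comp_apply]
        have h3 : v (o' G) ^ (2 * s + 1) * ((↑w⁻¹ : E) ^ s) ^ 2 =
            v (o' G) * ((↑w⁻¹ : E) * v (o' G)) ^ (2 * s) := by
          rw [mul_pow]
          ring
        rw [h3, hw', one_pow, mul_one])
      have hgo : ∀ q, g (o q) = v (o' q) := fun q => RingHom.congr_fun hg1 q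
      have hgu : IsUnit (g (o G)) := by
        rw [hgo]
        exact ⟨w, hw⟩
      refine ⟨IsLocalization.Away.lift (o G) hgu, ?_⟩
      have hll : ∀ q, IsLocalization.Away.lift (S := L) (o G) hgu (l q) = g q := fun q =>
        IsLocalization.Away.lift_eq (o G) hgu q
      refine hK'.uniq E _ _ ?_ ?_
      · refine RingHom.ext fun q => ?_
        change IsLocalization.Away.lift (S := L) (o G) hgu (r (o' q)) = v (o' q)
        rw [hr, hll, hgo]
      · change IsLocalization.Away.lift (S := L) (o G) hgu (r y') = v y'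
        rw [hr2, map_mul, map_pow, hll, hll, hg2, hgo, mul_assoc, ← mul_pow, hw', one_pow, mul_one]
    · intro E _ g g' hgg
      apply IsLocalization.ringHom_ext (Submonoid.powers (o G))
      have h3 : ∀ q, g (l (o q)) = g' (l (o q)) := by
        intro q
        rw [← hr]
        exact RingHom.congr_fun hgg (o' q)
      refine hK.uniq E _ _ ?_ ?_
      · refine RingHom.ext fun q => ?_
        exact h3 q
      · change g (l y) = g' (l y)
        have h4 := RingHom.congr_fun hgg y'
        rw [RingHom.comp_apply, RingHom.comp_apply, hr2, map_mul, map_mul, map_pow, map_pow, h3]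
          at h4
        have h5 : IsUnit (g' (l (o G)) ^ s) := (hu.map g').pow s
        exact h5.mul_right_cancel h4
  exact glue' hP (o' G) (ft_dp _) (char_dp hk _) (isLC_quot (o' G)) hLC
    (curve_dp hP hk _ hG) (hP.opn _ (o G) h (curve_dp hP hk G hG))

/-- coordinates on the plane -/
noncomputable def eW (n : ℕ) (c : k) (hc : c ≠ 0) : k[X][X] ≃+* MvPolynomial (Fin 2) k :=
  RingEquiv.ofRingHom
    (eval₂RingHom (eval₂RingHom MvPolynomial.C
      (MvPolynomial.X 1 ^ n - MvPolynomial.C c * MvPolynomial.X 0)) (MvPolynomial.X 1))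
    (MvPolynomial.eval₂Hom ((C : k[X] →+* k[X][X]).comp C)
      ![C (C c⁻¹) * (X ^ n - C X), X])
    (by
      apply MvPolynomial.ringHom_ext
      · intro a; simp
      · intro i
        fin_cases i
        · simp only [Fin.zero_eta, RingHom.comp_apply, MvPolynomial.eval₂Hom_X',
            Matrix.cons_val_zero, map_mul, map_sub, map_pow, coe_eval₂RingHom, eval₂_C, eval₂_X,
            RingHom.id_apply]
          rw [sub_sub_cancel, ← mul_assoc, ← map_mul, inv_mul_cancel₀ hc, map_one, one_mul]
        · simp)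
    (by
      refine Polynomial.ringHom_ext' (Polynomial.ringHom_ext' ?_ ?_) ?_
      · ext a; simp
      · have h1 : (C (C c) : k[X][X]) * C (C c⁻¹) = 1 := by
          rw [← C_mul, ← C_mul, mul_inv_cancel₀ hc, C_1, C_1]
        simp only [RingHom.comp_apply, coe_eval₂RingHom, eval₂_C, eval₂_X, map_sub, map_pow,
          map_mul, MvPolynomial.eval₂Hom_X', MvPolynomial.eval₂Hom_C, Matrix.cons_val_zero,
          Matrix.cons_val_one, RingHom.id_apply]
        linear_combination (-(X ^ n - C X)) * h1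
      · simp)

theorem eW_C (n : ℕ) (c : k) (hc : c ≠ 0) (g : k[X]) : eW n c hc (C g) =
    aeval (MvPolynomial.X 1 ^ n - MvPolynomial.C c * MvPolynomial.X 0 :
      MvPolynomial (Fin 2) k) g := by
  have h : eW n c hc (C g) = eval₂RingHom (eval₂RingHom MvPolynomial.C (MvPolynomial.X 1 ^ n -
      MvPolynomial.C c * MvPolynomial.X 0)) (MvPolynomial.X 1) (C g) := rfl
  rw [h, coe_eval₂RingHom, eval₂_C, coe_eval₂RingHom]
  rfl

/-- the coordinates `y`, `x` -/
noncomputable def eY : k[X][X] ≃+* MvPolynomial (Fin 2) k :=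
  RingEquiv.ofRingHom
    (eval₂RingHom (eval₂RingHom MvPolynomial.C (MvPolynomial.X 1)) (MvPolynomial.X 0))
    (MvPolynomial.eval₂Hom ((C : k[X] →+* k[X][X]).comp C) ![X, C X])
    (by
      apply MvPolynomial.ringHom_ext
      · intro a; simp
      · intro i
        fin_cases i
        · simp
        · simp)
    (by
      refine Polynomial.ringHom_ext' (Polynomial.ringHom_ext' ?_ ?_) ?_
      · ext a; simp
      · simp
      · simp)

theorem eY_C (g : k[X]) : (eY : k[X][X] ≃+* MvPolynomial (Fin 2) k) (C g) =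
    aeval (MvPolynomial.X 1 : MvPolynomial (Fin 2) k) g := by
  have h : (eY : k[X][X] ≃+* MvPolynomial (Fin 2) k) (C g) =
      eval₂RingHom (eval₂RingHom MvPolynomial.C (MvPolynomial.X 1)) (MvPolynomial.X 0) (C g) := rfl
  rw [h, coe_eval₂RingHom, eval₂_C, coe_eval₂RingHom]
  rfl

theorem sub_aeval (n : ℕ) (u : MvPolynomial (Fin 2) k) (g : k[X]) :
    sub n (aeval u g) = aeval (sub n u) g := by
  rw [sub, sub, ← aeval_algHom_apply]

/-- towers of cylinders -/
theorem tower_cyl [Finite k] (hP : FormalClass p P) (hk : (p : k) = 0) {n : ℕ}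
    {K : Type} [Field K] [IsAlgClosed K] [Algebra k K] (h : MvPolynomial (Fin 2) k)
    (hc : CylPt K h) : P (Cyc 2 (sub n h)) := by
  rcases exists_coord' h hc with ⟨g, c, rfl⟩ | ⟨g, rfl⟩
  · have h1 : sub n (MvPolynomial.X 1 - MvPolynomial.C c * MvPolynomial.X 0) =
        MvPolynomial.X 1 ^ n - MvPolynomial.C c * MvPolynomial.X 0 := by
      simp [sub]
    rw [sub_aeval, h1]
    by_cases hc0 : c = 0
    · subst hc0
      have h2 : aeval (MvPolynomial.X 1 ^ n - MvPolynomial.C 0 * MvPolynomial.X 0 :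
          MvPolynomial (Fin 2) k) g = eY (C (aeval (X ^ n : k[X]) g)) := by
        rw [eY_C, map_zero, zero_mul, sub_zero, ← aeval_algHom_apply, map_pow, aeval_X]
      rw [h2]
      exact cyl hP hk two_pos _ eY
    · rw [← eW_C n c hc0]
      exact cyl hP hk two_pos _ _
  · have h1 : sub n (MvPolynomial.X 0 : MvPolynomial (Fin 2) k) = MvPolynomial.X 0 := by
      simp [sub]
    rw [sub_aeval, h1, ← eB_C]
    exact cyl hP hk two_pos _ _

theorem sub_pow (n e : ℕ) (g : MvPolynomial (Fin 2) k) : sub n (g ^ e) = (sub n g) ^ e := by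
  simp [sub]

theorem sub0_sub (p m : ℕ) (h : MvPolynomial (Fin 2) k) :
    sub0 p (sub (p * m) h) = sub m (ex p k h) := by
  have h1 : ((MvPolynomial.bind₁ ![MvPolynomial.X 0 ^ p, MvPolynomial.X 1] :
      MvPolynomial (Fin 2) k →ₐ[k] MvPolynomial (Fin 2) k).comp
      (MvPolynomial.bind₁ ![MvPolynomial.X 0, MvPolynomial.X 1 ^ (p * m)])).toRingHom =
      ((MvPolynomial.bind₁ ![MvPolynomial.X 0, MvPolynomial.X 1 ^ m] :
        MvPolynomial (Fin 2) k →ₐ[k] MvPolynomial (Fin 2) k).toRingHom).comp (ex p k) := by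
    apply MvPolynomial.ringHom_ext
    · intro c
      simp [ex]
    · intro i
      fin_cases i
      · simp [ex]
      · simp [ex, pow_mul, mul_comm p m]
  exact RingHom.congr_fun h1 h

/-- **the reduction for towers** -/
theorem tower_reduction {p : ℕ} (hp : p.Prime) (hp2 : p ≠ 2)
    {P : ∀ (A : Type) [CommRing A], Prop} (hP : FormalClass p P)
    (hD : ∀ (k : Type) [Field k] [Finite k] [CharP k p] (h : MvPolynomial (Fin 2) k),
      h.totalDegree ≤ 3 →
      (∀ (K : Type) [Field K] [IsAlgClosed K] [Algebra k K], ¬ CylPt K h) →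
      ∀ n : ℕ, 0 < n → P (Dbl (Cyc 2 h) n (tt h)))
    (k : Type) [Field k] [Finite k] [CharP k p] (h : MvPolynomial (Fin 2) k)
    (hh : h.totalDegree ≤ 3) (n : ℕ) (hn : 0 < n) : P (Cyc 2 (sub n h)) := by
  have hpp : Fact p.Prime := ⟨hp⟩
  have hk : (p : k) = 0 := CharP.cast_eq_zero k p
  induction n using Nat.strong_induction_on generalizing h with
  | _ n ih =>
  by_cases hpn : p ∣ n
  · obtain ⟨m, rfl⟩ := hpn
    have hm : 0 < m := Nat.pos_of_mul_pos_left hn
    obtain ⟨φ, hφ⟩ := ex_root hk h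
    have hg : (MvPolynomial.map φ h).totalDegree ≤ 3 :=
      (Finset.sup_mono (MvPolynomial.support_map_subset φ h)).trans hh
    obtain ⟨s, hs⟩ : ∃ s, p = 2 * s + 1 := (hp.odd_of_ne_two hp2)
    have h1 : P (Cyc 2 (sub m (MvPolynomial.map φ h))) := ih m (by nlinarith [hp.two_le]) _ hg hm
    have h2 : P (Cyc 2 ((sub m (MvPolynomial.map φ h)) ^ (2 * s + 1))) := odd_pow hP hk _ s h1
    rw [← hs, ← sub_pow, ← hφ, ← sub0_sub] at h2
    obtain ⟨i, hi⟩ := kum0 p (sub (p * m) h)
    exact adjoin_transfer hP (ft_dp _) hp.ne_zero _ (iso_kum hP hi (isKum_std p _) h2)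
  · by_cases hc : ∀ (K : Type) [Field K] [IsAlgClosed K] [Algebra k K], ¬ CylPt K h
    · exact tower_of_dbl hP hk hpn h (hD k h hh hc n hn)
    · push Not at hc
      obtain ⟨K, hK1, hK2, hK3, hc⟩ := hc
      exact tower_cyl hP hk h hc

end

end Pool.Agent.Helper9.CT
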